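import Pool.Agent.Lib.MP_1a91b9_ntS3.L.Tor

/-!
# MP_1a91b9_nt (cubic twists): the curves `y² + y = x³` and `y² - y = x³` over `Q(ω)`

All nine points of order dividing three are rational; the Selmer group of `1 - ω` has three elements,
the classes of the powers of `ω`.
-/

set_option autoImplicit false

namespace Pool.Agent.Lib.MP_1a91b9_ntS3

open NumberField IsDedekindDomain WeierstrassCurve Pool.Agent.Lib.MP_1a91b9_ntT
open Pool.Agent.Lib.MP_1a91b9_nt (exists_point_equiv)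
open Pool.Agent.Lib.MP_1a91b9_ntT.S9 (Pts Gal coc cob trivOver shaCoc Sha up)
open Pool.Agent.Lib.MP_1a91b9_ntT3.S9 (ShaP)
open Pool.Agent.Lib.MP_1a91b9_ntH (wO s3 prime_s3 om_quad)
open Pool.Agent.Lib.MP_1a91b9_ntK Pool.Agent.Lib.MP_1a91b9_ntK.C
open scoped Classical

noncomputable section

/-! ### The descent with rational points killed by `(1 - ω)²` -/

section
variable {N : Type*} [Field N] [NumberField N] {d : N} (hd : d ≠ 0) {z : N}
  (hz : z ^ 2 + z + 1 = 0)

omit [NumberField N] in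
theorem act_up (σ : Gal N) (P : Pts (ck d) N) :
    act (ck d) σ (up (ck d) N (AlgebraicClosure N) P) = up (ck d) N (AlgebraicClosure N) P := by
  show Affine.Point.map _ (Affine.Point.map _ _) = _
  rw [Affine.Point.map_map]
  have hcomp : (σ : AlgebraicClosure N →ₐ[N] AlgebraicClosure N).comp
      (IsScalarTower.toAlgHom N N (AlgebraicClosure N)) =
      IsScalarTower.toAlgHom N N (AlgebraicClosure N) := AlgHom.ext fun x => σ.commutes x
  rw [hcomp]

/-- The class of a rational point `(x₀, y₀)`. -/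
theorem kd_pt (c : Gal N → Pts (ck d) (AlgebraicClosure N))
    (hmu : ∀ σ, mu (isK_bc hd hz (AlgebraicClosure N)) (c σ) = 0) (a : N)
    (b : AlgebraicClosure N) (hk : KD hd hz c a b) {x₀ y₀ : N}
    (hn : (Affine.baseChange (ck d) N).Nonsingular x₀ y₀) (hy : y₀ ≠ d) {r : N}
    (hr : r ^ 3 = a * (y₀ - d)) :
    ∃ R : Pts (ck d) (AlgebraicClosure N),
      mu (isK_bc hd hz (AlgebraicClosure N)) R =
        up (ck d) N (AlgebraicClosure N) (Affine.Point.some x₀ y₀ hn) ∧
      ∀ σ, c σ = act (ck d) σ R - R := by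
  set h := isK_bc hd hz (AlgebraicClosure N) with hh
  have hcfn : ∀ (σ : Gal N) (e : N) (R : Pts (ck d) (AlgebraicClosure N)),
      σ (cfn (algebraMap N (AlgebraicClosure N) z)
      (algebraMap N (AlgebraicClosure N) e) R) = cfn (algebraMap N (AlgebraicClosure N) z)
      (algebraMap N (AlgebraicClosure N) e) (act (ck d) σ R) := fun σ e R =>
    (cfn_map (σ : AlgebraicClosure N →ₐ[N] AlgebraicClosure N) e R).symm
  obtain ⟨R, hR⟩ := exists_mu_closed h
    (up (ck d) N (AlgebraicClosure N) (Affine.Point.some x₀ y₀ hn))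
  obtain ⟨hn2, hUV⟩ : ∃ hn2, up (ck d) N (AlgebraicClosure N) (Affine.Point.some x₀ y₀ hn) =
      Affine.Point.some (algebraMap N (AlgebraicClosure N) x₀)
        (algebraMap N (AlgebraicClosure N) y₀) hn2 := ⟨_, rfl⟩
  refine ⟨R, hR, fun σ => ?_⟩
  have hne : mu h R ≠ 0 := by
    rw [hR, hUV]
    exact Affine.Point.some_ne_zero _
  have hdiff : mu h (act (ck d) σ R - R) = 0 := by
    rw [map_sub, ← act_mu hd hz, hR, act_up, sub_self]
  have h3 := cfn_cube h R hn2 (hR.trans hUV)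
  have hx : (b * cfn (algebraMap N (AlgebraicClosure N) z)
      (algebraMap N (AlgebraicClosure N) d) R) ^ 3 =
      algebraMap N (AlgebraicClosure N) r ^ 3 := by
    rw [mul_pow, h3, ← hk.cu, ← map_pow, hr]
    simp only [map_mul, map_sub]
  have h4 := cube_root_fixed hz hx σ
  rw [map_mul, hk.act σ, hcfn] at h4
  have h5 : act (ck d) σ R = R + (act (ck d) σ R - R) := by abel
  rw [h5, cfn_add h R _ hne hdiff] at h4
  have hf0 : b * cfn (algebraMap N (AlgebraicClosure N) z)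
      (algebraMap N (AlgebraicClosure N) d) R ≠ 0 := by
    refine mul_ne_zero hk.ne fun h0 => ?_
    rw [h0] at h3
    have h6 : algebraMap N (AlgebraicClosure N) y₀ = algebraMap N (AlgebraicClosure N) d := by
      linear_combination -h3
    exact hy ((algebraMap N (AlgebraicClosure N)).injective h6)
  have h6 : ch h (c σ) ^ 2 * ch h (act (ck d) σ R - R) = 1 := by
    apply mul_right_cancel₀ hf0
    rw [one_mul]
    linear_combination h4
  apply ch_inj h _ _ (hmu σ) hdiff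
  linear_combination (-ch h (c σ)) * h6 + ch h (act (ck d) σ R - R) * ch_cube h (c σ)

/-- Locally trivial classes killed by `1 - ω` come from rational points killed by `(1 - ω)²`. -/
def CocT : Prop := ∀ c : Gal N → Pts (ck d) (AlgebraicClosure N), c ∈ shaCoc (ck d) →
  (∀ σ, mu (isK_bc hd hz (AlgebraicClosure N)) (c σ) = 0) →
  ∃ (R : Pts (ck d) (AlgebraicClosure N)) (P : Pts (ck d) N),
    mu (isK_bc hd hz N) (mu (isK_bc hd hz N) P) = 0 ∧
    mu (isK_bc hd hz (AlgebraicClosure N)) R = up (ck d) N (AlgebraicClosure N) P ∧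
    ∀ σ, c σ = act (ck d) σ R - R

variable {hd hz}

theorem descT0 (hS : CocT hd hz) (P : Pts (ck d) N) :
    ∃ T Q : Pts (ck d) N, mu (isK_bc hd hz N) (mu (isK_bc hd hz N) T) = 0 ∧
      P = T + mu (isK_bc hd hz N) Q := by
  obtain ⟨R₀, hR₀⟩ := exists_mu_closed (isK_bc hd hz (AlgebraicClosure N))
    (up (ck d) N (AlgebraicClosure N) P)
  obtain ⟨R, T, hT, hR, hc⟩ := hS (fun σ => act (ck d) σ R₀ - R₀)
    (Pool.Agent.Lib.MP_1a91b9_ntT.S9.cob_le_shaCoc (ck d) ⟨R₀, fun σ => rfl⟩) fun σ => by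
      rw [_root_.map_sub, ← act_mu hd hz, hR₀, act_up, sub_self]
  obtain ⟨Q, hQ⟩ := Pool.Agent.Lib.MP_1a91b9_ntT.S9.fixed_pt (L := N) (ck d) (R₀ - R) fun σ => by
    have h1 : Affine.Point.map ((σ : AlgebraicClosure N →ₐ[N] AlgebraicClosure N).restrictScalars N)
        (R₀ - R) = act (ck d) σ (R₀ - R) := rfl
    rw [h1, _root_.map_sub]
    have h2 := hc σ
    have h3 : act (ck d) σ R₀ - act (ck d) σ R = (act (ck d) σ R₀ - R₀) -
      (act (ck d) σ R - R) + (R₀ - R) := by abel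
    rw [h3, ← h2, sub_self, zero_add]
  have hinj : Function.Injective (up (ck d) N (AlgebraicClosure N)) := Affine.Point.map_injective _
  have hmuup : ∀ P : Pts (ck d) N, up (ck d) N (AlgebraicClosure N) (mu (isK_bc hd hz N) P) =
      mu (isK_bc hd hz (AlgebraicClosure N)) (up (ck d) N (AlgebraicClosure N) P) := fun P =>
    mu_map hd hz (IsScalarTower.toAlgHom N N (AlgebraicClosure N)) P
  refine ⟨T, Q, hT, hinj ?_⟩
  rw [_root_.map_add, ← hR, hmuup, hQ, _root_.map_sub, hR₀]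
  abel

omit [NumberField N] in
private theorem descT_transport {W₁ W₂ : Affine N} (e : W₁ = W₂) {z₁ z₂ d₁ d₂ : N} (ez : z₁ = z₂)
    (ed : d₁ = d₂) (h₁ : IsK W₁ z₁ d₁) (h₂ : IsK W₂ z₂ d₂)
    (h : ∀ P : W₁.Point, ∃ T Q : W₁.Point, mu h₁ (mu h₁ T) = 0 ∧ P = T + mu h₁ Q) :
    ∀ P : W₂.Point, ∃ T Q : W₂.Point, mu h₂ (mu h₂ T) = 0 ∧ P = T + mu h₂ Q := by
  subst e
  subst ez
  subst ed
  exact h

theorem descT (hS : CocT hd hz) {W : Affine N} (hW : IsK W z d) (P : W.Point) :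
    ∃ T Q : W.Point, mu hW (mu hW T) = 0 ∧ P = T + mu hW Q := by
  have h0 := isK_bc hd hz N
  refine descT_transport (h0.eq.trans hW.eq.symm) rfl rfl h0 hW (descT0 hS) P

theorem mu_classT (hS : CocT hd hz) (c : Gal N → Pts (ck d) (AlgebraicClosure N))
    (hc : c ∈ shaCoc (ck d))
    (h2 : (fun σ => mu (isK_bc hd hz (AlgebraicClosure N)) (c σ)) ∈ cob (ck d)) :
    c ∈ cob (ck d) := by
  obtain ⟨Q, hQ⟩ := h2
  obtain ⟨R, hR⟩ := exists_mu_closed (isK_bc hd hz (AlgebraicClosure N)) Q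
  have hd' : (fun σ : Gal N => act (ck d) σ R - R) ∈ cob (ck d) := ⟨R, fun σ => rfl⟩
  have hc' : c - (fun σ : Gal N => act (ck d) σ R - R) ∈ cob (ck d) := by
    obtain ⟨R', _, _, _, h⟩ := hS _
      (sub_mem hc (Pool.Agent.Lib.MP_1a91b9_ntT.S9.cob_le_shaCoc (ck d) hd')) fun σ => by
        have h1 : mu (isK_bc hd hz (AlgebraicClosure N)) (c σ) = act (ck d) σ Q - Q := hQ σ
        simp only [Pi.sub_apply]
        rw [_root_.map_sub, _root_.map_sub, h1, ← act_mu hd hz, hR, sub_self]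
    exact ⟨R', h⟩
  have h5 := add_mem hc' hd'
  rwa [sub_add_cancel] at h5

theorem three_classT (hS : CocT hd hz) (c : Gal N → Pts (ck d) (AlgebraicClosure N))
    (hc : c ∈ shaCoc (ck d)) (h3 : 3 • c ∈ cob (ck d)) : c ∈ cob (ck d) := by
  refine mu_classT hS c hc (mu_classT hS _ (mu_shaCoc hd hz c hc) ?_)
  obtain ⟨Q, hQ⟩ := h3
  refine ⟨-(omP (isK_bc hd hz (AlgebraicClosure N)) Q), fun σ => ?_⟩
  have h1 : 3 • c σ = act (ck d) σ Q - Q := hQ σ
  show mu (isK_bc hd hz (AlgebraicClosure N)) (mu (isK_bc hd hz (AlgebraicClosure N)) (c σ)) =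
    act (ck d) σ (-(omP (isK_bc hd hz (AlgebraicClosure N)) Q)) -
      -(omP (isK_bc hd hz (AlgebraicClosure N)) Q)
  have h4 : act (ck d) σ (omP (isK_bc hd hz (AlgebraicClosure N)) Q) =
      omP (isK_bc hd hz (AlgebraicClosure N)) (act (ck d) σ Q) :=
    omP_map hd hz (σ : AlgebraicClosure N →ₐ[N] AlgebraicClosure N) Q
  rw [mu_mu, ← _root_.map_nsmul, h1, _root_.map_sub, _root_.map_neg, h4]
  abel

theorem sha_threeT (hS : CocT hd hz) (x : Sha (ck d)) (h : 3 • x = 0) : x = 0 := by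
  have key : ∀ y : shaCoc (ck d) ⧸ (cob (ck d)).addSubgroupOf (shaCoc (ck d)),
      3 • y = 0 → y = 0 := by
    intro y hy
    obtain ⟨⟨c, hc⟩, rfl⟩ := QuotientAddGroup.mk_surjective y
    rw [← QuotientAddGroup.mk_nsmul, QuotientAddGroup.eq_zero_iff,
      AddSubgroup.mem_addSubgroupOf] at hy
    rw [QuotientAddGroup.eq_zero_iff, AddSubgroup.mem_addSubgroupOf]
    exact three_classT hS c hc hy
  exact key x h

/-- The 3-primary part of the Tate-Shafarevich group is trivial. -/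
theorem card_shaPT (hS : CocT hd hz) : Nat.card (ShaP 3 (ck d)) = 1 := by
  have key : ∀ n : ℕ, ∀ y : Sha (ck d), 3 ^ n • y = 0 → y = 0 := by
    intro n
    induction n with
    | zero =>
      intro y hy
      simpa using hy
    | succ n ih =>
      intro y hy
      refine sha_threeT hS y (ih _ ?_)
      rw [← mul_nsmul', ← pow_succ]
      exact hy
  have h1 : ∀ x : AddCommGroup.primaryComponent (Sha (ck d)) 3, x = 0 := by
    rintro ⟨x, n, hn⟩
    exact Subtype.ext (key n x hn)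
  exact Nat.card_eq_one_iff_unique.2
    ⟨⟨fun x y => (h1 x).trans (h1 y).symm⟩, ⟨(0 : AddCommGroup.primaryComponent (Sha (ck d)) 3)⟩⟩

end

/-! ### The points -/

section
variable {N : Type*} [Field N] [NumberField N] {W : Affine N} {z d : N}

/-- The range of `(1 - ω)²`. -/
def rg2 (h : IsK W z d) : AddSubgroup W.Point := ((mu h).comp (mu h)).range

theorem rg2_om (h : IsK W z d) (P : W.Point) (hP : P ∈ rg2 h) : omP h P ∈ rg2 h := by
  obtain ⟨Q, rfl⟩ := hP
  refine ⟨omP h Q, ?_⟩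
  rw [AddMonoidHom.comp_apply, AddMonoidHom.comp_apply, mu_om, mu_om]

omit [NumberField N] in
theorem rg2_div (h : IsK W z d)
    (hP : ∀ P : W.Point, ∃ T Q : W.Point, mu h (mu h T) = 0 ∧ P = T + mu h Q) (P : W.Point)
    (hPr : P ∈ rg2 h) : ∃ Q ∈ rg2 h, mu h Q = P := by
  obtain ⟨R, rfl⟩ := hPr
  obtain ⟨T, Q, hT, hR⟩ := hP R
  refine ⟨mu h (mu h Q), ⟨Q, rfl⟩, ?_⟩
  rw [AddMonoidHom.comp_apply, hR, map_add, map_add, hT, zero_add]

theorem rg2_inj (h : IsK W z d)
    (hP : ∀ P : W.Point, ∃ T Q : W.Point, mu h (mu h T) = 0 ∧ P = T + mu h Q) (P : W.Point)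
    (hPr : P ∈ rg2 h) (h0 : mu h P = 0) : P = 0 := by
  have h1 : Finite (rg2 h) := finite_of_mu_div h _ (rg2_om h) (rg2_div h hP)
  have hm : ∀ P : rg2 h, mu h P.1 ∈ rg2 h := by
    rintro ⟨P, R, rfl⟩
    exact ⟨mu h R, rfl⟩
  let f : rg2 h → rg2 h := fun P => ⟨mu h P.1, hm P⟩
  have hsurj : Function.Surjective f := by
    intro P
    obtain ⟨Q, hQ, hQP⟩ := rg2_div h hP P.1 P.2
    exact ⟨⟨Q, hQ⟩, Subtype.ext hQP⟩
  have hinj : Function.Injective f := Finite.injective_iff_surjective.2 hsurj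
  have h2 : (⟨P, hPr⟩ : rg2 h) = 0 := by
    apply hinj
    apply Subtype.ext
    change mu h P = mu h (0 : W.Point)
    rw [h0, map_zero]
  exact congrArg Subtype.val h2

/-- The number of the points killed by `(1 - ω)²`. -/
theorem card_ker2 (h : IsK W z d) {P₀ : W.Point} (h0 : mu h P₀ ≠ 0) (h1 : mu h (mu h P₀) = 0) :
    Nat.card ((mu h).comp (mu h)).ker = 9 := by
  have hk3 := card_mu_ker h
  let f : ((mu h).comp (mu h)).ker →+ (mu h).ker :=
    { toFun := fun P => ⟨mu h P.1, P.2⟩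
      map_zero' := Subtype.ext (map_zero (mu h))
      map_add' := fun P Q => Subtype.ext (map_add (mu h) P.1 Q.1) }
  have hsurj : Function.Surjective f := by
    rintro ⟨Q, hQ⟩
    rcases mu_ker_all h _ h1 with e | e | e
    · exact absurd e h0
    · rcases mu_ker_all h Q hQ with rfl | rfl | rfl
      · exact ⟨0, map_zero f⟩
      · exact ⟨⟨P₀, h1⟩, Subtype.ext e⟩
      · exact ⟨-⟨P₀, h1⟩, Subtype.ext (by
          change mu h (-P₀) = _
          rw [map_neg, e])⟩
    · rcases mu_ker_all h Q hQ with rfl | rfl | rfl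
      · exact ⟨0, map_zero f⟩
      · exact ⟨-⟨P₀, h1⟩, Subtype.ext (by
          change mu h (-P₀) = _
          rw [map_neg, e, neg_neg])⟩
      · exact ⟨⟨P₀, h1⟩, Subtype.ext e⟩
  have e1 : Nat.card (mu h).ker = 3 := hk3
  have e2 : Nat.card f.ker = 3 := by
    rw [← hk3]
    refine Nat.card_congr ⟨fun P => ⟨P.1.1, congrArg Subtype.val P.2⟩, fun P => ⟨⟨P.1, by
      change mu h (mu h P.1) = 0
      rw [P.2, map_zero]⟩, Subtype.ext P.2⟩, fun P => rfl, fun P => rfl⟩
  rw [AddSubgroup.card_eq_card_quotient_mul_card_addSubgroup f.ker, e2,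
    Nat.card_congr (QuotientAddGroup.quotientKerEquivOfSurjective f hsurj).toEquiv, e1]

theorem fin_of_descT (h : IsK W z d) {P₀ : W.Point} (h0 : mu h P₀ ≠ 0) (h1 : mu h (mu h P₀) = 0)
    (hP : ∀ P : W.Point, ∃ T Q : W.Point, mu h (mu h T) = 0 ∧ P = T + mu h Q) :
    Finite W.Point := by
  have h3 : Finite ((mu h).comp (mu h)).range :=
    finite_of_mu_div h _ (rg2_om h) (rg2_div h hP)
  have h2 : Finite ((mu h).comp (mu h)).ker :=
    Nat.finite_of_card_ne_zero (by rw [card_ker2 h h0 h1]; norm_num)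
  have h4 : Finite (W.Point ⧸ ((mu h).comp (mu h)).ker) :=
    Finite.of_equiv _ (QuotientAddGroup.quotientKerEquivRange ((mu h).comp (mu h))).symm.toEquiv
  exact Finite.of_equiv _ (AddSubgroup.addGroupEquivQuotientProdAddSubgroup
    (s := ((mu h).comp (mu h)).ker)).symm

theorem three_smul_ker2 (h : IsK W z d) {P : W.Point} : 3 • P = 0 ↔ mu h (mu h P) = 0 := by
  rw [mu_mu, neg_eq_zero, ← map_nsmul]
  constructor
  · intro h1
    rw [h1, map_zero]
  · intro h1
    have h2 := om_sum h (3 • P)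
    rw [h1, map_zero, add_zero, add_zero] at h2
    exact h2

theorem prim_of_descT (h : IsK W z d)
    (hP : ∀ P : W.Point, ∃ T Q : W.Point, mu h (mu h T) = 0 ∧ P = T + mu h Q) (P : W.Point) :
    P ∈ AddCommGroup.primaryComponent W.Point 3 ↔ P ∈ ((mu h).comp (mu h)).ker := by
  have h3 : ∀ Q ∈ rg2 h, 3 • Q = 0 → Q = 0 := by
    intro Q hQ h0
    have h1 := (three_smul_ker2 h).1 h0
    have h2 : mu h Q ∈ rg2 h := by
      obtain ⟨R, rfl⟩ := hQ
      exact ⟨mu h R, rfl⟩
    exact rg2_inj h hP Q hQ (rg2_inj h hP _ h2 h1)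
  constructor
  · rintro ⟨j, hj⟩
    change mu h (mu h P) = 0
    have key : ∀ (j : ℕ) (Q : W.Point), Q ∈ rg2 h → 3 ^ j • Q = 0 → Q = 0 := by
      intro j
      induction j with
      | zero =>
        intro Q _ h0
        rwa [pow_zero, one_smul] at h0
      | succ j ih =>
        intro Q hQ h0
        apply h3 Q hQ
        apply ih _ ((rg2 h).nsmul_mem hQ 3)
        rw [smul_smul, ← pow_succ]
        exact h0
    refine key j (mu h (mu h P)) ⟨P, rfl⟩ ?_
    have h4 : 3 ^ j • mu h (mu h P) = mu h (mu h (3 ^ j • P)) := by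
      rw [map_nsmul, map_nsmul]
    rw [h4]
    have h5 : 3 ^ j • P = 0 := hj
    rw [h5, map_zero, map_zero]
  · intro h1
    exact ⟨1, by
      rw [pow_one]
      exact (three_smul_ker2 h).2 h1⟩

theorem card_prim_descT (h : IsK W z d) {P₀ : W.Point} (h0 : mu h P₀ ≠ 0)
    (h1 : mu h (mu h P₀) = 0)
    (hP : ∀ P : W.Point, ∃ T Q : W.Point, mu h (mu h T) = 0 ∧ P = T + mu h Q) :
    Nat.card (AddCommGroup.primaryComponent W.Point 3) = 9 :=
  (Nat.card_congr (Equiv.subtypeEquivRight fun P => prim_of_descT h hP P)).trans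
    (card_ker2 h h0 h1)

end

/-! ### The curve `y² = x³ + 1 / 4` -/

theorem half_ne : (1 / 2 : K) ≠ 0 := by norm_num

/-- The Selmer elements. -/
theorem sel_one {a : K} (ha : a ≠ 0)
    (hl : ∀ v : HeightOneSpectrum (𝓞 K), GLoc (v.valuation K) (1 + 2 * om) (1 / 2) a) :
    ∃ (i : ℕ) (b : K), b ≠ 0 ∧ a = om ^ i * b ^ 3 := by
  obtain ⟨i, V, b, hb, hab⟩ := dec3 ∅ ha (by
    intro v _
    refine loc_unr_K (D := 1) (fun h => v.isPrime.ne_top ((Ideal.eq_top_iff_one _).2 h))
      (k := 1 / 2) (by push_cast; norm_num) ?_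
    rw [lK_eq]
    exact hl v)
  refine ⟨i, b, hb, ?_⟩
  rw [hab]
  unfold mon
  rw [Finset.prod_empty, mul_one]
  push_cast
  rfl

theorem nons_of {x y : K} (h : y ^ 2 = x ^ 3 + (1 / 2) ^ 2) :
    (Affine.baseChange (ck (1 / 2 : K)) K).Nonsingular x y :=
  ((isK_bc half_ne om_quad K).nons x y).2 h

theorem eq_pt : (1 / 2 + om : K) ^ 2 = (-1) ^ 3 + (1 / 2) ^ 2 := by
  linear_combination om_quad

theorem eq_pt' : (-(1 / 2 + om) : K) ^ 2 = (-1) ^ 3 + (1 / 2) ^ 2 := by
  linear_combination om_quad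

/-- a point with abscissa `-1` is killed by `(1 - ω)²` -/
theorem mu_mu_pt {W : Affine K} (h : IsK W om (1 / 2)) {y : K} (hn : W.Nonsingular (-1) y) :
    mu h (.some (-1) y hn) ≠ 0 ∧ mu h (mu h (.some (-1) y hn)) = 0 := by
  obtain ⟨x', y', hn', e1, e2, -⟩ := mu_some h hn (neg_ne_zero.2 one_ne_zero)
  have hx : x' = 0 := by
    rw [e2]
    norm_num
  refine ⟨?_, ?_⟩
  · rw [e1]
    exact Affine.Point.some_ne_zero _
  · rw [e1, mu_apply, sub_eq_zero]
    exact ((omP_fixed h hn').2 hx).symm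

theorem cocT_half : CocT (N := K) half_ne om_quad := by
  intro c hc h2
  obtain ⟨a, b, hk⟩ := exists_kd half_ne om_quad c hc.1.1 h2
  have ha : a ≠ 0 := by
    rintro rfl
    have h := hk.cu
    rw [_root_.map_zero] at h
    exact hk.ne ((pow_eq_zero_iff three_ne_zero).1 h.symm)
  have hloc : ∀ v : HeightOneSpectrum (𝓞 K), GLoc (v.valuation K) (1 + 2 * om) (1 / 2) a :=
    fun v => by
    have : CharZero (v.adicCompletion K) :=
      charZero_of_injective_algebraMap (algebraMap K (v.adicCompletion K)).injective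
    have h : c ∈ ⨅ v : HeightOneSpectrum (𝓞 K), trivOver (ck (1 / 2)) (v.adicCompletion K) :=
      hc.1.2
    have hcv : c ∈ trivOver (ck (1 / 2)) (v.adicCompletion K) := AddSubgroup.mem_iInf.1 h v
    exact gloc_of_locAt v om_quad half_ne ha (kd_loc half_ne om_quad c h2 a b hk hcv)
  obtain ⟨i, e, he, hae⟩ := sel_one ha hloc
  have hom3 : om ^ 3 = 1 := by linear_combination (om - 1) * om_quad
  have hi : om ^ i = om ^ (i % 3) := by
    conv_lhs => rw [← Nat.div_add_mod i 3, pow_add, pow_mul, hom3, one_pow, one_mul]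
  have hlt : i % 3 < 3 := Nat.mod_lt _ (by norm_num)
  rw [hi] at hae
  have hom0 : om ≠ 0 := by
    intro h
    rw [h] at hom3
    norm_num at hom3
  interval_cases hi3 : i % 3
  · refine ⟨0, 0, ?_, ?_, fun σ => ?_⟩
    · rw [map_zero, map_zero]
    · rw [map_zero, map_zero]
    · rw [kd_zero half_ne om_quad c h2 a b hk ⟨e, by rw [hae, pow_zero, one_mul]⟩ σ, map_zero,
        sub_zero]
  · obtain ⟨R, hR, hcR⟩ := kd_pt half_ne om_quad c h2 a b hk (nons_of eq_pt')
      (by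
        intro h
        have h1 : om = -1 := by linear_combination -h
        have h3 := hom3
        rw [h1] at h3
        norm_num at h3) (r := om * e) (by
        rw [hae]
        linear_combination (om * e ^ 3) * om_quad)
    exact ⟨R, _, (mu_mu_pt _ _).2, hR, hcR⟩
  · obtain ⟨R, hR, hcR⟩ := kd_pt half_ne om_quad c h2 a b hk (nons_of eq_pt)
      (by
        intro h
        apply hom0
        linear_combination h) (r := om * e) (by
        rw [hae]
        ring)
    exact ⟨R, _, (mu_mu_pt _ _).2, hR, hcR⟩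

theorem isK_half : IsK (ck (1 / 2 : K)).toAffine om (1 / 2) := ⟨rfl, om_quad, half_ne⟩

/-- The curve `y² = x³ + 1 / 4` over `Q(ω)`. -/
theorem half_all : Finite (ck (1 / 2 : K)).toAffine.Point ∧
    Nat.card (AddCommGroup.primaryComponent (ck (1 / 2 : K)).toAffine.Point 3) = 9 ∧
    Nat.card (ShaP 3 (ck (1 / 2 : K))) = 1 := by
  have hP := descT cocT_half isK_half
  have hn : (ck (1 / 2 : K)).toAffine.Nonsingular (-1) (1 / 2 + om) :=
    (isK_half.nons _ _).2 eq_pt
  obtain ⟨h0, h1⟩ := mu_mu_pt isK_half hn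
  exact ⟨fin_of_descT isK_half h0 h1 hP, card_prim_descT isK_half h0 h1 hP,
    card_shaPT cocT_half⟩

/-- **The curves `y² + D y = x³`, `D = ± 1`, over `Q(ω)`.** -/
theorem wd_unit {D : 𝓞 K} (hD : D = 1 ∨ D = -1) :
    Finite (wd (D : K)).toAffine.Point ∧
    Nat.card (AddCommGroup.primaryComponent (wd (D : K)).toAffine.Point 3) = 9 ∧
    Nat.card (ShaP 3 (wd (D : K))) = 1 := by
  obtain ⟨h1, h2, h3⟩ := half_all
  have hDK : (D : K) = 2 * (1 / 2) ∨ (D : K) = -(2 * (1 / 2)) := by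
    rcases hD with rfl | rfl
    · left
      push_cast
      norm_num
    · right
      push_cast
      norm_num
  obtain ⟨e1, e2, e3⟩ := wd_of_ck hDK 3
  refine ⟨e1.2 h1, ?_, e3.trans h3⟩
  obtain ⟨C, hC⟩ : ∃ C : VariableChange K, wd (D : K) = C • ck (1 / 2 : K) := by
    rcases hDK with h | h
    · exact ⟨ckC (1 / 2), (ckC_smul h.symm).symm⟩
    · refine ⟨ckC (-(1 / 2)), ?_⟩
      rw [← ck_neg (1 / 2 : K)]
      exact (ckC_smul (by rw [h]; ring)).symm
  rw [hC]
  obtain ⟨f, -⟩ := exists_point_equiv (ck (1 / 2 : K)) C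
  rw [card_prim_equiv f 3]
  exact h2

end

end Pool.Agent.Lib.MP_1a91b9_ntS3
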