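import Pool.Agent.Lib.MP_1a91b9_ntS3.C.RowD
import Pool.Agent.Lib.MP_1a91b9_ntK.C.PtsJ
import Pool.Agent.Lib.MP_1a91b9_ntK.A.Ind1
import Pool.Agent.Lib.MP_1a91b9_ntK.A.Theta
import Pool.Agent.Lib.MP_1a91b9_ntK.A.SysHA
import Pool.Agent.Lib.MP_1a91b9_ntK.Q.Pts

/-!
# MP_1a91b9_nt (cubic twists), converse of the descent: a vanishing determinant gives a vector
-/

set_option autoImplicit false
set_option linter.unusedVariables false

namespace Pool.Agent.Lib.MP_1a91b9_ntS3.C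

open NumberField Finset Pool.Agent.Lib.MP_1a91b9_ntK Pool.Agent.Lib.MP_1a91b9_ntK.C

noncomputable section

private theorem BadB_field : Fact (Nat.Prime 3) := ⟨Nat.prime_three⟩

private theorem BadB_sq : ∀ x : ZMod 3, x ≠ 0 → x * x = 1 := by decide

/-- extension by zero -/
def ex0 (S : Finset P3) (v : S → ZMod 3) (q : P3) : ZMod 3 :=
  haveI := Classical.dec (q ∈ S)
  if h : q ∈ S then v ⟨q, h⟩ else 0

theorem ex0_coe {S : Finset P3} (v : S → ZMod 3) (q : S) : ex0 S v q = v q := by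
  unfold ex0
  rw [dif_pos q.2]

theorem ex0_mem {S : Finset P3} (v : S → ZMod 3) {q : P3} (hq : q ∈ S) :
    ex0 S v q = v ⟨q, hq⟩ := ex0_coe v ⟨q, hq⟩

theorem ex0_fun {S : Finset P3} (v : S → ZMod 3) : (fun q : S => ex0 S v q) = v :=
  funext fun q => ex0_coe v q

/-- a vector of the kernel gives the equations -/
theorem rows_of_ker {S : Finset P3} {i j u : ZMod 3} {e κ V : P3 → ZMod 3}
    (hκ : ∀ q ∈ S, κ q = i * d3.a q + j * bq q)
    (h : ∀ q : S, (NE d3.s κ e S).mulVec (fun p => V p) q = u * d3.a q) : Rows S i j e V u := by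
  intro q hq
  have h1 := h ⟨q, hq⟩
  rw [NE_row, hκ q hq] at h1
  linear_combination -h1

theorem kapK_d3 (k : ZMod 3) (q : P3) : kapK k q = k * d3.a q := by
  rw [kapK, abar_d3]
  ring

theorem kapJ_d3 (k j : ZMod 3) (q : P3) : kapJ k j q = k * d3.a q + j * bq q := by
  have h : bbar q.1 = bq q := (bbar_q q).symm
  rw [kapJ, abar_d3, h]
  ring

/-- `j = 0`, `k ≠ 0` -/
theorem badB1 {S : Finset P3} {k : ZMod 3} (hk : k ≠ 0) {e : P3 → ZMod 3}
    (he : ∀ q ∈ S, e q ≠ 0) (h : (NK k e S).det = 0) :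
    ∃ V : P3 → ZMod 3, Rows S k 0 e V 0 ∧ ∑ q ∈ S, V q * d3.a q = 0 ∧ ¬ ∀ q ∈ S, V q = 0 := by
  have := BadB_field
  obtain ⟨v, hv0, hv⟩ := Matrix.exists_mulVec_eq_zero_iff.2 h
  have hR : Rows S k 0 e (ex0 S v) 0 := by
    refine rows_of_ker (κ := kapK k) (fun q _ => by rw [kapK_d3]; ring) fun q => ?_
    rw [ex0_fun, zero_mul]
    exact congrFun hv q
  refine ⟨ex0 S v, hR, ?_, ?_⟩
  · have h1 := hR.sum he
    rw [zero_mul, zero_mul, add_zero] at h1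
    exact (mul_eq_zero.1 h1.symm).resolve_left hk
  · intro h0
    apply hv0
    funext q
    rw [← ex0_coe v q, h0 q q.2]
    rfl

/-- `j = 0`, `k = 0` -/
theorem badB0 {S : Finset P3} {e : P3 → ZMod 3} (he : ∀ q ∈ S, e q ≠ 0)
    (hB : ∑ q ∈ S, e q * abar q.1 ≠ 0)
    (h : CZ (fun i p => d3.s i p * e p) (fun q : P3 => abar q.1) S = 0) :
    ∃ V : P3 → ZMod 3, Rows S 0 0 e V 0 ∧ ∑ q ∈ S, V q * d3.a q = 0 ∧ ¬ ∀ q ∈ S, V q = 0 := by
  have := BadB_field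
  have hker : ¬ ∀ v : S → ZMod 3, (NE d3.s 0 e S).mulVec v = 0 →
      ∃ c : ZMod 3, ∀ i, v i = c * e i := fun hk =>
    CZ_ne_of_ker d3.s d3_sym (fun q : P3 => abar q.1) e he hB hk h
  push Not at hker
  obtain ⟨v, hv, hvn⟩ := hker
  have hE : ∑ q ∈ S, e q * d3.a q ≠ 0 := by
    intro h0
    apply hB
    rw [← neg_eq_zero, ← sum_neg_distrib, ← h0]
    exact sum_congr rfl fun q _ => by rw [abar_d3]; ring
  have hve := NE_mulVec_e d3.s e S fun i hi => BadB_sq _ (he i hi)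
  obtain ⟨c, hc⟩ : ∃ c : ZMod 3, c * ∑ q ∈ S, e q * d3.a q = ∑ q ∈ S, ex0 S v q * d3.a q :=
    ⟨(∑ q ∈ S, ex0 S v q * d3.a q) / ∑ q ∈ S, e q * d3.a q, div_mul_cancel₀ _ hE⟩
  refine ⟨fun q => ex0 S v q - c * e q, ?_, ?_, ?_⟩
  · refine rows_of_ker (κ := 0) (fun q _ => by rw [Pi.zero_apply]; ring) fun q => ?_
    have e1 : (fun p : S => ex0 S v p - c * e p) = v - c • fun p : S => e p := by
      funext p
      rw [ex0_coe]
      rfl
    rw [e1, Matrix.mulVec_sub, Matrix.mulVec_smul, hv, hve, smul_zero, sub_zero, Pi.zero_apply,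
      zero_mul]
  · have e1 : ∑ q ∈ S, (ex0 S v q - c * e q) * d3.a q =
        ∑ q ∈ S, ex0 S v q * d3.a q - c * ∑ q ∈ S, e q * d3.a q := by
      rw [mul_sum, ← sum_sub_distrib]
      exact sum_congr rfl fun q _ => by ring
    rw [e1, hc, sub_self]
  · intro h0
    obtain ⟨q, hq⟩ := hvn c
    apply hq
    have h1 : ex0 S v q - c * e q = 0 := h0 q q.2
    rw [ex0_coe] at h1
    exact sub_eq_zero.1 h1

/-- a vector of the kernel of the bordered matrix gives the equations -/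
theorem rows_of_NB {S : Finset P3} {i j z : ZMod 3} {e κ : P3 → ZMod 3}
    (hκ : ∀ q ∈ S, κ q = i * d3.a q + j * bq q) {v : S ⊕ Unit → ZMod 3}
    (h : (NB d3.s κ e aP z S).mulVec v = 0) :
    Rows S i j e (ex0 S (v ∘ Sum.inl)) (v (Sum.inr ())) ∧
      ∑ q ∈ S, ex0 S (v ∘ Sum.inl) q * d3.a q + v (Sum.inr ()) * -z = 0 := by
  have ha : ∀ q : P3, aP q = -d3.a q := fun q => abar_d3 q
  have h1 : ∀ q : S, (NE d3.s κ e S).mulVec (v ∘ Sum.inl) q + aP q * v (Sum.inr ()) = 0 := by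
    intro q
    have h2 := congrFun h (Sum.inl q)
    rw [NB, Matrix.fromBlocks_mulVec] at h2
    have h3 : (NE d3.s κ e S).mulVec (v ∘ Sum.inl) q + (∑ x : Unit, aP q * v (Sum.inr x)) = 0 := h2
    rw [Fintype.sum_unique (fun x : Unit => aP q * v (Sum.inr x))] at h3
    exact h3
  have h2 : ∑ q : S, aP q * v (Sum.inl q) + z * v (Sum.inr ()) = 0 := by
    have h2 := congrFun h (Sum.inr ())
    rw [NB, Matrix.fromBlocks_mulVec] at h2
    have h3 : (∑ q : S, aP q * v (Sum.inl q)) + (∑ x : Unit, z * v (Sum.inr x)) = 0 := h2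
    rw [Fintype.sum_unique (fun x : Unit => z * v (Sum.inr x))] at h3
    exact h3
  refine ⟨rows_of_ker hκ fun q => ?_, ?_⟩
  · rw [ex0_fun]
    have h3 := h1 q
    rw [ha] at h3
    linear_combination h3
  · have e1 : ∑ q : S, aP q * v (Sum.inl q) =
        -∑ q ∈ S, ex0 S (v ∘ Sum.inl) q * d3.a q := by
      rw [← sum_neg_distrib, ← sum_coe_sort S fun q => -(ex0 S (v ∘ Sum.inl) q * d3.a q)]
      refine sum_congr rfl fun q _ => ?_
      rw [ex0_coe, ha]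
      change -d3.a q * v (Sum.inl q) = -(v (Sum.inl q) * d3.a q)
      ring
    rw [e1] at h2
    linear_combination -h2

/-- `u + 2 u = 0` -/
private theorem BadB_u : ∀ u : ZMod 3, u + 2 * u = 0 := by decide

private theorem BadB_two : (2 : ZMod 3) ≠ 0 := by decide

/-- the hard class -/
theorem badBH {S : Finset P3} (hS0 : S.Nonempty) {e : P3 → ZMod 3} (he : ∀ q ∈ S, e q ≠ 0)
    (hS : ∑ q ∈ S, e q * aP q = 0) (h : kapH d3.s aP bP e S = 0) :
    ¬ GoodG S 0 0 e 2 (-∑ q ∈ S, e q * bq q) := by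
  intro hG
  refine kapH_ne_of_ker d3.s d3_sym aP bP e hS0 he hS (fun v hv => ?_) h
  have hb : ∑ q ∈ S, e q * bP q = ∑ q ∈ S, e q * bq q := by
    refine sum_congr rfl fun q _ => ?_
    have h1 : bP q = bq q := (bbar_q q).symm
    rw [h1]
  obtain ⟨h1, h2⟩ := rows_of_NB (i := 0) (j := 0) (κ := 0) (fun q _ => by rw [Pi.zero_apply]; ring) hv
  rw [hb] at h2
  obtain ⟨c, hc, hu, -⟩ := hG _ _ (v (Sum.inr ())) (BadB_u _) h2 h1
  refine ⟨c, fun q => ?_, by rw [hu, mul_zero]⟩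
  have h3 := hc q q.2
  rw [ex0_coe] at h3
  exact h3

/-- `j = 1` -/
theorem badBJ1 {S : Finset P3} {k : ZMod 3} {e : P3 → ZMod 3} (he : ∀ q ∈ S, e q ≠ 0)
    (h : (NJ1 k e S).det = 0) : ¬ GoodG S k 1 e 2 (-k) := by
  intro hG
  have := BadB_field
  obtain ⟨v, hv0, hv⟩ := Matrix.exists_mulVec_eq_zero_iff.2 h
  obtain ⟨h1, h2⟩ := rows_of_NB (i := k) (j := 1) (κ := kapJ k 1) (fun q _ => kapJ_d3 k 1 q) hv
  obtain ⟨c, hc, hu, hj⟩ := hG _ _ (v (Sum.inr ())) (BadB_u _) h2 h1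
  rw [mul_one] at hj
  apply hv0
  funext x
  rcases x with q | ⟨⟩
  · have h3 := hc q q.2
    rw [ex0_coe, hj, zero_mul] at h3
    exact h3
  · rw [hu, hj, zero_mul]
    rfl

/-- `j = 2` -/
theorem badBJ2 {S : Finset P3} {k : ZMod 3} {e : P3 → ZMod 3} (he : ∀ q ∈ S, e q ≠ 0)
    (h : (NJ k 2 e S).det = 0) : ¬ GoodG S k 2 e 0 1 := by
  intro hG
  have := BadB_field
  obtain ⟨v, hv0, hv⟩ := Matrix.exists_mulVec_eq_zero_iff.2 h
  have hR : Rows S k 2 e (ex0 S v) 0 := by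
    refine rows_of_ker (κ := kapJ k 2) (fun q _ => kapJ_d3 k 2 q) fun q => ?_
    rw [ex0_fun, zero_mul]
    exact congrFun hv q
  obtain ⟨c, hc, -, hj⟩ := hG (ex0 S v) 0 (-∑ q ∈ S, ex0 S v q * d3.a q)
    (by rw [zero_mul, add_zero]) (by rw [mul_one, add_neg_cancel]) hR
  have hc0 : c = 0 := (mul_eq_zero.1 hj).resolve_right BadB_two
  apply hv0
  funext q
  have h3 := hc q q.2
  rw [ex0_coe, hc0, zero_mul] at h3
  exact h3

end

end Pool.Agent.Lib.MP_1a91b9_ntS3.C
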