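import Pool.Agent.Lib.MP_1a91b9_ntK.C.Sel3j
import Pool.Agent.Lib.MP_1a91b9_ntK.C.Dens

/-!
# MP_1a91b9_nt (cubic twists), converse of the descent: products of classes of local points
-/

set_option autoImplicit false

namespace Pool.Agent.Lib.MP_1a91b9_ntS3.C

open WithZero Pool.Agent.Lib.MP_1a91b9_ntK.C

/-- Products of classes which satisfy the local condition. -/
inductive GP {L : Type*} [Field L] (ν : Valuation L ℤᵐ⁰) (l k : L) : L → Prop
  | loc {a : L} : GLoc ν l k a → GP ν l k a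
  | mul {a b : L} : GP ν l k a → GP ν l k b → GP ν l k (a * b)

theorem GP.pow {L : Type*} [Field L] {ν : Valuation L ℤᵐ⁰} {l k a : L} (h : GP ν l k a) {n : ℕ}
    (hn : n ≠ 0) : GP ν l k (a ^ n) := by
  induction n with
  | zero => exact absurd rfl hn
  | succ n ih =>
    rcases Nat.eq_zero_or_pos n with rfl | h0
    · rwa [zero_add, pow_one]
    · rw [pow_succ]
      exact (ih h0.ne').mul h

/-- `a` from `a x` and `x` -/
theorem GP.of_mul {L : Type*} [Field L] [CharZero L] {ν : Valuation L ℤᵐ⁰} {l k a x : L} (hl0 : l ≠ 0)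
    (hx0 : x ≠ 0) (h : GP ν l k (a * x)) (hx : GP ν l k x) : GP ν l k a := by
  have h1 : GP ν l k ((x⁻¹) ^ 3) := .loc (Or.inl (Cu.cube hl0 (inv_ne_zero hx0)))
  have h2 := (h.mul (hx.pow (n := 2) (by norm_num))).mul h1
  have e : a * x * x ^ 2 * x⁻¹ ^ 3 = a := by
    field_simp
  rwa [e] at h2

end Pool.Agent.Lib.MP_1a91b9_ntS3.C
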