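import Pool.Agent.Lib.MP_1a91b9_ntS3.C.Cocy

/-!
# MP_1a91b9_nt (cubic twists), converse of the descent: the cocycle of a cube root of `a` is trivial over `L`
if `a` is the class of a point over `L`
-/

set_option autoImplicit false

namespace Pool.Agent.Lib.MP_1a91b9_ntS3.C

open WeierstrassCurve NumberField IsDedekindDomain
open Pool.Agent.Lib.MP_1a91b9_ntK.C
open Pool.Agent.Lib.MP_1a91b9_ntT.S9 (Pts Gal coc cob trivOver shaCoc Sha up)
open scoped Classical

variable {k : Type*} [Field k] [CharZero k] {z d : k} (hd : d ≠ 0) (hz : z ^ 2 + z + 1 = 0)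

/-- The cocycles attached to the cube roots of `a` are trivial over `L`. -/
def LT (a : k) (L : Type*) [Field L] [Algebra k L] : Prop :=
  ∀ (c : Gal k → Pts (ck d) (AlgebraicClosure k)) (b : AlgebraicClosure k),
    (∀ σ, mu (isK_bc hd hz (AlgebraicClosure k)) (c σ) = 0) → KD hd hz c a b →
      c ∈ trivOver (ck d) L

theorem LT.mul {a a' : k} {L : Type*} [Field L] [Algebra k L] (ha' : a' ≠ 0)
    (h : LT hd hz a L) (h' : LT hd hz a' L) : LT hd hz (a * a') L := by
  intro c b hmu hk
  obtain ⟨b', hb'⟩ := IsAlgClosed.exists_pow_nat_eq (algebraMap k (AlgebraicClosure k) a') (n := 3)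
    (by norm_num)
  have ha0 : algebraMap k (AlgebraicClosure k) a' ≠ 0 := (map_ne_zero _).2 ha'
  have hb0 : b' ≠ 0 := by
    rintro rfl
    apply ha0
    rw [← hb']
    norm_num
  have hb1 : algebraMap k (AlgebraicClosure k) a = (b / b') ^ 3 := by
    rw [div_pow, ← hk.cu, hb', map_mul, mul_div_cancel_right₀ _ ha0]
  obtain ⟨c₁, -, hm₁, hk₁⟩ := exists_cocycle3 hd hz a (b / b') (div_ne_zero hk.ne hb0) hb1
  obtain ⟨c₂, -, hm₂, hk₂⟩ := exists_cocycle3 hd hz a' b' hb0 hb'.symm
  have h3 := kd_mul hd hz hm₁ hm₂ hk₁ hk₂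
  rw [div_mul_cancel₀ _ hb0] at h3
  have h4 : c = c₁ + c₂ := kd_unique hd hz hmu (fun σ => by
    rw [Pi.add_apply, map_add, hm₁, hm₂, add_zero]) hk h3
  rw [h4]
  exact add_mem (h c₁ _ hm₁ hk₁) (h' c₂ _ hm₂ hk₂)

section

variable {L : Type*} [Field L] [CharZero L] [Algebra k L]

include hz in
omit [CharZero k] in
omit [CharZero L] in
private theorem triv_zL : algebraMap k L z ^ 2 + algebraMap k L z + 1 = 0 := by
  rw [← map_pow, ← map_add, ← map_one (algebraMap k L), ← map_add, hz, map_zero]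

/-- `a` is a cube in `L` -/
theorem lt_of_cube {a : k} (h : ∃ β : L, β ^ 3 = algebraMap k L a) : LT hd hz a L := by
  intro c b hmu hk j
  obtain ⟨β, hβ⟩ := h
  refine ⟨0, fun σ τ hτ => ?_⟩
  have hja : ∀ x : k, j (algebraMap k (AlgebraicClosure k) x) =
      algebraMap L (AlgebraicClosure L) (algebraMap k L x) := by
    intro x
    rw [j.commutes, ← IsScalarTower.algebraMap_apply]
  have h1 : σ (j b) = j b := cube_root_fixed (r := β) (triv_zL hz)
    (by rw [← map_pow, ← hk.cu, hja, ← hβ, map_pow]) σ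
  have h2 : τ b = b := j.injective ((hτ b).trans h1)
  have h3 := hk.act τ
  rw [h2] at h3
  have h4 : ch (isK_bc hd hz (AlgebraicClosure k)) (c τ) ^ 2 = 1 := (mul_eq_right₀ hk.ne).1 h3.symm
  have h5 := ch_cube (isK_bc hd hz (AlgebraicClosure k)) (c τ)
  have h6 : ch (isK_bc hd hz (AlgebraicClosure k)) (c τ) = 1 := by
    linear_combination h5 - ch (isK_bc hd hz (AlgebraicClosure k)) (c τ) * h4
  have h7 : c τ = 0 := ch_inj _ _ _ (hmu τ) (map_zero _) (by rw [h6, ch_zero])
  rw [h7, map_zero, map_zero, sub_zero]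

/-- the class of a point -/
theorem lt_of_pt {a : k} (x y β : L) (hxy : y ^ 2 = x ^ 3 + algebraMap k L d ^ 2)
    (hy : y ≠ algebraMap k L d)
    (hβ : β ^ 3 = algebraMap k L a * (y - algebraMap k L d)) : LT hd hz a L := by
  intro c b hmu hk j
  have hja : ∀ x : k, j (algebraMap k (AlgebraicClosure k) x) =
      algebraMap L (AlgebraicClosure L) (algebraMap k L x) := by
    intro x
    rw [j.commutes, ← IsScalarTower.algebraMap_apply]
  have hK := isK_bc hd hz (AlgebraicClosure L)
  have hKL := isK_bc hd hz L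
  have hdd : algebraMap k (AlgebraicClosure L) d =
      algebraMap L (AlgebraicClosure L) (algebraMap k L d) := IsScalarTower.algebraMap_apply _ _ _ _
  obtain ⟨hn2, hQ⟩ : ∃ hn2, up (ck d) L (AlgebraicClosure L)
      (Affine.Point.some x y ((hKL.nons x y).2 hxy)) =
      Affine.Point.some (algebraMap L (AlgebraicClosure L) x)
        (algebraMap L (AlgebraicClosure L) y) hn2 := ⟨_, rfl⟩
  obtain ⟨P, hP⟩ := exists_mu_closed (isK_bc hd hz (AlgebraicClosure L))
    (up (ck d) L (AlgebraicClosure L) (Affine.Point.some x y ((hKL.nons x y).2 hxy)))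
  refine ⟨P, fun σ τ hτ => ?_⟩
  set f := (σ : AlgebraicClosure L →ₐ[L] AlgebraicClosure L).restrictScalars k with hf
  obtain ⟨R, hR⟩ : ∃ R, R = Affine.Point.map (W' := ck d) f P - P := ⟨_, rfl⟩
  have hmf : mu (isK_bc hd hz (AlgebraicClosure L)) (Affine.Point.map (W' := ck d) f P) =
      mu (isK_bc hd hz (AlgebraicClosure L)) P := by
    rw [← mu_map hd hz, hP, hQ, Affine.Point.map_some]
    congr 1
    · exact σ.commutes x
    · exact σ.commutes y
  have hR0 : mu (isK_bc hd hz (AlgebraicClosure L)) R = 0 := by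
    rw [hR, map_sub, hmf, sub_self]
  have hne : mu (isK_bc hd hz (AlgebraicClosure L)) P ≠ 0 := by
    rw [hP, hQ]
    exact Affine.Point.some_ne_zero _
  have h3 := cfn_cube (isK_bc hd hz (AlgebraicClosure L)) P hn2 (hP.trans hQ)
  obtain ⟨s, hs⟩ : ∃ s, s = cfn (algebraMap k (AlgebraicClosure L) z)
    (algebraMap k (AlgebraicClosure L) d) P := ⟨_, rfl⟩
  rw [← hs] at h3
  have hσs : σ s = ch (isK_bc hd hz (AlgebraicClosure L)) R * s := by
    have h1 := (cfn_map (z := z) f d P).symm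
    have h2 : Affine.Point.map (W' := ck d) f P = P + R := by
      rw [hR]
      abel
    rw [h2, cfn_add (isK_bc hd hz (AlgebraicClosure L)) P R hne hR0, ← hs] at h1
    exact h1
  have hσb : σ (j b) = ch (isK_bc hd hz (AlgebraicClosure L)) (Affine.Point.map j (c τ)) ^ 2 *
      j b := by
    rw [← hτ, hk.act τ, map_mul, map_pow, ch_map hd hz]
  have hw : (j b * s) ^ 3 = algebraMap L (AlgebraicClosure L) β ^ 3 := by
    rw [mul_pow, ← map_pow, ← hk.cu, hja, h3, hdd, ← map_sub, ← map_mul, ← hβ, map_pow]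
  have hfix : σ (j b * s) = j b * s := cube_root_fixed (r := β) (triv_zL hz) hw σ
  have hs0 : s ≠ 0 := by
    rintro rfl
    rw [hdd, ← map_sub] at h3
    have h4 : algebraMap L (AlgebraicClosure L) (y - algebraMap k L d) = 0 := by
      rw [← h3]
      norm_num
    rw [map_eq_zero] at h4
    exact hy (sub_eq_zero.1 h4)
  have hb0 : j b * s ≠ 0 := mul_ne_zero ((map_ne_zero j).2 hk.ne) hs0
  rw [map_mul, hσb, hσs] at hfix
  have h6 : ch (isK_bc hd hz (AlgebraicClosure L)) (Affine.Point.map j (c τ)) ^ 2 *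
      ch (isK_bc hd hz (AlgebraicClosure L)) R = 1 := by
    apply mul_right_cancel₀ hb0
    rw [one_mul]
    linear_combination hfix
  rw [← hR]
  refine ch_inj (isK_bc hd hz (AlgebraicClosure L)) _ _ ?_ hR0 ?_
  · rw [← mu_map hd hz, hmu, map_zero]
  · linear_combination (-ch (isK_bc hd hz (AlgebraicClosure L)) (Affine.Point.map j (c τ))) * h6 +
      ch (isK_bc hd hz (AlgebraicClosure L)) R *
        ch_cube (isK_bc hd hz (AlgebraicClosure L)) (Affine.Point.map j (c τ))

/-- the class of the point `(0, d)` -/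
theorem lt_of_tq {a : k} (h : ∃ β : L, β ^ 3 = algebraMap k L (a * (2 * d) ^ 2)) :
    LT hd hz a L := by
  intro c b hmu hk j
  obtain ⟨β, hβ⟩ := h
  have hja : ∀ x : k, j (algebraMap k (AlgebraicClosure k) x) =
      algebraMap L (AlgebraicClosure L) (algebraMap k L x) := by
    intro x
    rw [j.commutes, ← IsScalarTower.algebraMap_apply]
  have hdd : algebraMap k (AlgebraicClosure L) d =
      algebraMap L (AlgebraicClosure L) (algebraMap k L d) := IsScalarTower.algebraMap_apply _ _ _ _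
  obtain ⟨P, hP⟩ := exists_mu_closed (isK_bc hd hz (AlgebraicClosure L))
    (tq (isK_bc hd hz (AlgebraicClosure L)))
  refine ⟨P, fun σ τ hτ => ?_⟩
  set f := (σ : AlgebraicClosure L →ₐ[L] AlgebraicClosure L).restrictScalars k with hf
  obtain ⟨R, hR⟩ : ∃ R, R = Affine.Point.map (W' := ck d) f P - P := ⟨_, rfl⟩
  have hmf : mu (isK_bc hd hz (AlgebraicClosure L)) (Affine.Point.map (W' := ck d) f P) =
      mu (isK_bc hd hz (AlgebraicClosure L)) P := by
    rw [← mu_map hd hz, hP, tq_map hd hz]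
  have hR0 : mu (isK_bc hd hz (AlgebraicClosure L)) R = 0 := by
    rw [hR, map_sub, hmf, sub_self]
  have hne : mu (isK_bc hd hz (AlgebraicClosure L)) P ≠ 0 := by
    rw [hP]
    exact tq_ne _
  have h3 := cfn_cube' (isK_bc hd hz (AlgebraicClosure L)) P _ hP
  obtain ⟨s, hs⟩ : ∃ s, s = cfn (algebraMap k (AlgebraicClosure L) z)
    (-algebraMap k (AlgebraicClosure L) d) P := ⟨_, rfl⟩
  rw [← hs] at h3
  have hσs : σ s = ch (isK_bc hd hz (AlgebraicClosure L)) R ^ 2 * s := by
    have h1 := (cfn_map (z := z) f (-d) P).symm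
    have h2 : Affine.Point.map (W' := ck d) f P = P + R := by
      rw [hR]
      abel
    rw [map_neg, h2, cfn_add' (isK_bc hd hz (AlgebraicClosure L)) P R hne hR0, ← hs] at h1
    exact h1
  have hσb : σ (j b) = ch (isK_bc hd hz (AlgebraicClosure L)) (Affine.Point.map j (c τ)) ^ 2 *
      j b := by
    rw [← hτ, hk.act τ, map_mul, map_pow, ch_map hd hz]
  have hw : (j b * s ^ 2) ^ 3 = algebraMap L (AlgebraicClosure L) β ^ 3 := by
    rw [mul_pow, ← pow_mul, mul_comm 2 3, pow_mul, h3, ← map_pow, ← hk.cu, hja, ← map_pow, hβ]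
    simp only [map_mul, map_pow, map_ofNat, ← hdd]
    ring
  have hfix : σ (j b * s ^ 2) = j b * s ^ 2 := cube_root_fixed (r := β) (triv_zL hz) hw σ
  have hs0 : s ≠ 0 := by
    rintro rfl
    have h4 : algebraMap k (AlgebraicClosure L) d ≠ 0 := (map_ne_zero _).2 hd
    apply h4
    have h5 : (2 : AlgebraicClosure L) * algebraMap k (AlgebraicClosure L) d = 0 := by
      linear_combination -h3
    exact (mul_eq_zero.1 h5).resolve_left two_ne_zero
  have hb0 : j b * s ^ 2 ≠ 0 := mul_ne_zero ((map_ne_zero j).2 hk.ne) (pow_ne_zero 2 hs0)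
  rw [map_mul, map_pow, hσb, hσs] at hfix
  have h7 := ch_cube (isK_bc hd hz (AlgebraicClosure L)) R
  have h6 : ch (isK_bc hd hz (AlgebraicClosure L)) (Affine.Point.map j (c τ)) ^ 2 *
      ch (isK_bc hd hz (AlgebraicClosure L)) R = 1 := by
    apply mul_right_cancel₀ hb0
    rw [one_mul]
    linear_combination hfix - (ch (isK_bc hd hz (AlgebraicClosure L))
      (Affine.Point.map j (c τ)) ^ 2 * j b * s ^ 2 *
        ch (isK_bc hd hz (AlgebraicClosure L)) R) * h7
  rw [← hR]
  refine ch_inj (isK_bc hd hz (AlgebraicClosure L)) _ _ ?_ hR0 ?_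
  · rw [← mu_map hd hz, hmu, map_zero]
  · linear_combination (-ch (isK_bc hd hz (AlgebraicClosure L)) (Affine.Point.map j (c τ))) * h6 +
      ch (isK_bc hd hz (AlgebraicClosure L)) R *
        ch_cube (isK_bc hd hz (AlgebraicClosure L)) (Affine.Point.map j (c τ))

/-- the class of the point `(0, -d)` -/
theorem lt_of_neg_tq {a : k}
    (h : ∃ β : L, β ^ 3 = algebraMap k L (a * (2 * d))) : LT hd hz a L := by
  obtain ⟨β, hβ⟩ := h
  refine lt_of_pt hd hz 0 (-algebraMap k L d) (-β) (by ring) ?_ ?_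
  · intro h0
    have h4 : algebraMap k L d ≠ 0 := (map_ne_zero _).2 hd
    apply h4
    have h5 : (2 : L) * algebraMap k L d = 0 := by linear_combination -h0
    exact (mul_eq_zero.1 h5).resolve_left two_ne_zero
  · rw [neg_pow, hβ]
    simp only [map_mul, map_ofNat]
    ring

end

end Pool.Agent.Lib.MP_1a91b9_ntS3.C
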