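import Pool.Agent.Lib.MP_1a91b9_ntS3.C.Hs
import Pool.Agent.Lib.MP_1a91b9_ntS3.C.Triv
import Pool.Agent.Lib.MP_1a91b9_ntS3.C.Defs
import Pool.Agent.Lib.MP_1a91b9_ntT.S9.MA
import Pool.Agent.Lib.MP_1a91b9_ntT3.S9.Defs

/-!
# MP_1a91b9_nt (cubic twists), converse of the descent: a locally trivial class which is not the class of a
point of the kernel gives a point of infinite order or a nonzero class in the 3-primary part of the
Tate-Shafarevich group
-/

set_option autoImplicit false

namespace Pool.Agent.Lib.MP_1a91b9_ntS3.C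

open WeierstrassCurve WithZero NumberField IsDedekindDomain
open Pool.Agent.Lib.MP_1a91b9_ntK.C
open Pool.Agent.Lib.MP_1a91b9_ntT.S9 (Pts Gal coc cob trivOver shaCoc Sha up)
open Pool.Agent.Lib.MP_1a91b9_ntT3.S9 (ShaP)
open scoped Classical

/-- an endomorphism of a finite group whose kernel has three elements and meets the image in `0` -/
theorem three_coker {A : Type*} [AddCommGroup A] [Finite A] (μ : A →+ A)
    (h : ∀ x, μ x = 0 → x ∈ μ.range → x = 0) (P : A) : ∃ T Q : A, μ T = 0 ∧ P = T + μ Q := by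
  have h1 : Nat.card A = Nat.card (A ⧸ μ.range) * Nat.card μ.range :=
    AddSubgroup.card_eq_card_quotient_mul_card_addSubgroup _
  have h2 : Nat.card A = Nat.card (A ⧸ μ.ker) * Nat.card μ.ker :=
    AddSubgroup.card_eq_card_quotient_mul_card_addSubgroup _
  have h3 : Nat.card (A ⧸ μ.ker) = Nat.card μ.range :=
    Nat.card_congr (QuotientAddGroup.quotientKerEquivRange μ).toEquiv
  have h4 : Nat.card μ.ker = Nat.card (A ⧸ μ.range) := by
    have h5 : 0 < Nat.card μ.range := Nat.card_pos
    refine Nat.eq_of_mul_eq_mul_left h5 ?_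
    rw [← h3, ← h2, h1, h3, mul_comm]
  let f : μ.ker →+ A ⧸ μ.range := (QuotientAddGroup.mk' μ.range).comp μ.ker.subtype
  have hf : Function.Injective f := by
    refine (injective_iff_map_eq_zero f).2 fun x hx => ?_
    have h6 : (QuotientAddGroup.mk (x : A) : A ⧸ μ.range) = 0 := hx
    rw [QuotientAddGroup.eq_zero_iff] at h6
    exact Subtype.ext (h x.1 x.2 h6)
  have hb : Function.Bijective f := (Nat.bijective_iff_injective_and_card f).2 ⟨hf, h4⟩
  obtain ⟨T, hT⟩ := hb.2 (QuotientAddGroup.mk P)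
  have h7 : (QuotientAddGroup.mk (T : A) : A ⧸ μ.range) = QuotientAddGroup.mk P := hT
  rw [QuotientAddGroup.eq] at h7
  obtain ⟨Q, hQ⟩ := h7
  exact ⟨T, Q, T.2, by rw [hQ]; abel⟩

section

variable {N : Type*} [Field N] [NumberField N] {d : N} (hd : d ≠ 0) {z : N}
  (hz : z ^ 2 + z + 1 = 0)

theorem three_l_le (v : HeightOneSpectrum (𝓞 N)) {l : N} (hl : l ^ 2 = -3) :
    v.valuation N (3 * l) ≤ 1 := by
  have h3 : v.valuation N (3 : N) ≤ 1 := by
    have h5 := HeightOneSpectrum.valuation_le_one (K := N) v (3 : 𝓞 N)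
    have h6 : algebraMap (𝓞 N) N 3 = 3 := map_ofNat _ 3
    exact h6 ▸ h5
  have h4 : v.valuation N l ^ 2 ≤ 1 := by
    rw [← map_pow, hl, Valuation.map_neg]
    exact h3
  have h5 : v.valuation N l ≤ 1 := (pow_le_one_iff_of_nonneg zero_le (by norm_num)).1 h4
  rw [map_mul]
  exact mul_le_one' h3 h5

/-- the local condition makes the cocycles locally trivial -/
theorem lt_of_gloc {a : N} (v : HeightOneSpectrum (𝓞 N)) {l : N} (hl : l ^ 2 = -3)
    (h : GLoc (v.valuation N) l d a) : LT hd hz a (v.adicCompletion N) := by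
  have : CharZero (v.adicCompletion N) :=
    charZero_of_injective_algebraMap (algebraMap N (v.adicCompletion N)).injective
  have hinj := (algebraMap N (v.adicCompletion N)).injective
  rcases h with h | h | h | ⟨y, hy, h⟩
  · exact lt_of_cube hd hz (cube_of_Cu v hl h)
  · exact lt_of_neg_tq hd hz (cube_of_Cu v hl h)
  · exact lt_of_tq hd hz (cube_of_Cu v hl h)
  · obtain ⟨x, hx⟩ := cube_of_Cu v hl hy
    obtain ⟨β, hβ⟩ := cube_of_Cu v hl h
    refine lt_of_pt hd hz x (algebraMap N (v.adicCompletion N) y) β ?_ ?_ ?_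
    · rw [hx, map_sub, map_pow, map_pow]
      ring
    · intro h0
      have h1 := h.ne (three_l_le v hl)
      apply h1
      rw [hinj h0, sub_self, mul_zero]
    · rw [hβ, map_mul, map_sub]

theorem lt_of_gp {a : N} (v : HeightOneSpectrum (𝓞 N)) {l : N} (hl : l ^ 2 = -3)
    (h : GP (v.valuation N) l d a) : a ≠ 0 ∧ LT hd hz a (v.adicCompletion N) := by
  induction h with
  | loc h =>
    refine ⟨?_, lt_of_gloc hd hz v hl h⟩
    have hle := three_l_le v hl
    rcases h with h | h | h | ⟨y, hy, h⟩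
    · exact h.ne hle
    · exact left_ne_zero_of_mul (h.ne hle)
    · exact left_ne_zero_of_mul (h.ne hle)
    · exact left_ne_zero_of_mul (h.ne hle)
  | mul _ _ ih1 ih2 => exact ⟨mul_ne_zero ih1.1 ih2.1, ih1.2.mul hd hz ih2.1 ih2.2⟩

omit [NumberField N] in
private theorem three_ker [CharZero N] (P : Pts (ck d) (AlgebraicClosure N))
    (h : mu (isK_bc hd hz (AlgebraicClosure N)) P = 0) : 3 • P = 0 := by
  have h1 := mu_mu (isK_bc hd hz (AlgebraicClosure N)) P
  have h2 : omP (isK_bc hd hz (AlgebraicClosure N)) P = P := by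
    have h3 := h
    rw [mu_apply, sub_eq_zero] at h3
    exact h3.symm
  rw [h, map_zero, h2] at h1
  exact neg_eq_zero.1 h1.symm

/-- A locally trivial class of a field with finitely many points and trivial 3-primary part of the
Tate-Shafarevich group is the class of a point of the kernel. -/
theorem conv_sel3 (hD : ¬ ∃ r : N, r ^ 3 = 2 * d) (hinf : ∀ v : InfinitePlace N, v.IsComplex)
    {a : N} (ha : a ≠ 0)
    (hloc : ∀ v : HeightOneSpectrum (𝓞 N), LT hd hz a (v.adicCompletion N))
    {W : WeierstrassCurve N} (hW : W = ck d) (hfin : Finite W.toAffine.Point)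
    (hcard : Nat.card (ShaP 3 W) = 1) :
    (∃ r, r ^ 3 = a) ∨ (∃ r, r ^ 3 = a * (2 * d)) ∨ ∃ r, r ^ 3 = a * (2 * d) ^ 2 := by
  subst hW
  obtain ⟨b, hb⟩ := IsAlgClosed.exists_pow_nat_eq (algebraMap N (AlgebraicClosure N) a) (n := 3)
    (by norm_num)
  have ha0 : algebraMap N (AlgebraicClosure N) a ≠ 0 := (map_ne_zero _).2 ha
  have hb0 : b ≠ 0 := by
    rintro rfl
    apply ha0
    rw [← hb]
    norm_num
  obtain ⟨c, hc, hmu, hk⟩ := exists_cocycle3 hd hz a b hb0 hb.symm
  have hsha : c ∈ shaCoc (ck d) := by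
    refine ⟨⟨hc, ?_⟩, ?_⟩
    · exact AddSubgroup.mem_iInf.2 fun v => hloc v c b hmu hk
    · refine AddSubgroup.mem_iInf.2 fun v => ?_
      have : CharZero v.Completion :=
        charZero_of_injective_algebraMap (algebraMap N v.Completion).injective
      refine lt_of_cube hd hz ?_ c b hmu hk
      let e := InfinitePlace.Completion.ringEquivComplexOfIsComplex (hinf v)
      obtain ⟨y, hy⟩ := IsAlgClosed.exists_pow_nat_eq (e (algebraMap N v.Completion a))
        (n := 3) (by norm_num)
      refine ⟨e.symm y, e.injective ?_⟩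
      rw [map_pow, e.apply_symm_apply, ← hy]
  -- the class is zero
  have hcob : c ∈ cob (ck d) := by
    have hx : ∀ x : AddCommGroup.primaryComponent (Sha (ck d)) 3, x = 0 := by
      intro x
      have h1 := (Nat.card_eq_one_iff_unique.1 hcard).1
      exact Subsingleton.elim _ _
    let y : Sha (ck d) := QuotientAddGroup.mk (⟨c, hsha⟩ : shaCoc (ck d))
    have hy : 3 ^ 1 • y = 0 := by
      rw [pow_one]
      show (QuotientAddGroup.mk (3 • (⟨c, hsha⟩ : shaCoc (ck d))) : Sha (ck d)) = 0
      rw [QuotientAddGroup.eq_zero_iff, AddSubgroup.mem_addSubgroupOf]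
      refine ⟨0, fun σ => ?_⟩
      rw [map_zero, sub_zero]
      exact three_ker hd hz (c σ) (hmu σ)
    have h3 := congrArg Subtype.val (hx ⟨y, 1, hy⟩)
    have h4 : (QuotientAddGroup.mk (⟨c, hsha⟩ : shaCoc (ck d)) : Sha (ck d)) = 0 := h3
    rw [QuotientAddGroup.eq_zero_iff, AddSubgroup.mem_addSubgroupOf] at h4
    exact h4
  obtain ⟨R, hR⟩ := hcob
  have hR' : ∀ σ, c σ = act (ck d) σ R - R := hR
  -- the point `mu R` comes from `N`
  obtain ⟨P, hP⟩ := Pool.Agent.Lib.MP_1a91b9_ntT.S9.fixed_pt (L := N) (ck d)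
    (mu (isK_bc hd hz (AlgebraicClosure N)) R) fun σ => by
      have h1 : Affine.Point.map ((σ : AlgebraicClosure N →ₐ[N] AlgebraicClosure N).restrictScalars N)
          (mu (isK_bc hd hz (AlgebraicClosure N)) R) =
          act (ck d) σ (mu (isK_bc hd hz (AlgebraicClosure N)) R) := rfl
      rw [h1, act_mu hd hz]
      have h3 := hmu σ
      rw [hR' σ, map_sub, sub_eq_zero] at h3
      exact h3
  have hfin' : Finite (Pts (ck d) N) := by
    have e : (Affine.baseChange (ck d) N) = (ck d).toAffine := by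
      have h0 := isK_bc hd hz N
      exact h0.eq
    show Finite (Affine.baseChange (ck d) N).Point
    rw [e]
    exact hfin
  have hup : ∀ (σ : Gal N) (P : Pts (ck d) N),
      act (ck d) σ (up (ck d) N (AlgebraicClosure N) P) = up (ck d) N (AlgebraicClosure N) P := by
    intro σ P
    show Affine.Point.map _ (Affine.Point.map _ _) = _
    rw [Affine.Point.map_map]
    have hcomp : (σ : AlgebraicClosure N →ₐ[N] AlgebraicClosure N).comp
        (IsScalarTower.toAlgHom N N (AlgebraicClosure N)) =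
        IsScalarTower.toAlgHom N N (AlgebraicClosure N) := AlgHom.ext fun x => σ.commutes x
    rw [hcomp]
  have hmuup : ∀ P : Pts (ck d) N, up (ck d) N (AlgebraicClosure N) (mu (isK_bc hd hz N) P) =
      mu (isK_bc hd hz (AlgebraicClosure N)) (up (ck d) N (AlgebraicClosure N) P) := fun P =>
    mu_map hd hz (IsScalarTower.toAlgHom N N (AlgebraicClosure N)) P
  have htq : up (ck d) N (AlgebraicClosure N) (tq (isK_bc hd hz N)) =
      tq (isK_bc hd hz (AlgebraicClosure N)) :=
    tq_map hd hz (IsScalarTower.toAlgHom N N (AlgebraicClosure N))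
  have hnt : ∀ Q : Pts (ck d) N, mu (isK_bc hd hz N) Q ≠ tq (isK_bc hd hz N) := by
    intro Q hQ
    apply hD
    have h1 := cfn_cube' (isK_bc hd hz N) Q _ hQ
    refine ⟨_, h1.trans ?_⟩
    show d + d = 2 * d
    ring
  obtain ⟨T, Q, hT, hPQ⟩ := three_coker (mu (isK_bc hd hz N)) (by
    intro x hx hxr
    obtain ⟨Q, hQ⟩ := hxr
    rcases mu_ker_all _ x hx with h | h | h
    · exact h
    · exact absurd (hQ.trans h) (hnt Q)
    · refine absurd ?_ (hnt (-Q))
      rw [map_neg, hQ, h, neg_neg]) P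
  set R₁ := R - up (ck d) N (AlgebraicClosure N) Q with hR₁
  have hc1 : ∀ σ, c σ = act (ck d) σ R₁ - R₁ := by
    intro σ
    rw [hR₁, map_sub, hup, hR' σ]
    abel
  have hR2 : mu (isK_bc hd hz (AlgebraicClosure N)) R₁ = up (ck d) N (AlgebraicClosure N) T := by
    have h1 : up (ck d) N (AlgebraicClosure N) P =
      mu (isK_bc hd hz (AlgebraicClosure N)) R := hP
    rw [hPQ, map_add, hmuup] at h1
    rw [hR₁, map_sub, ← h1]
    abel
  have hadd : ∀ σ, act (ck d) σ R₁ = R₁ + c σ := by
    intro σ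
    rw [hc1 σ]
    abel
  rcases mu_ker_all _ T hT with h0 | h0 | h0
  · left
    have h1 : ∀ σ : Gal N, σ b = b := by
      intro σ
      have h2 : mu (isK_bc hd hz (AlgebraicClosure N)) R₁ = 0 := by rw [hR2, h0, map_zero]
      have h3 : c σ = 0 := by rw [hc1 σ, act_ker hd hz σ R₁ h2, sub_self]
      rw [hk.act σ, h3, ch_zero, one_pow, one_mul]
    obtain ⟨β, hβ⟩ := Pool.Agent.Lib.MP_1a91b9_ntT.S9.fixed_elem (k := N) b h1
    refine ⟨β, (algebraMap N (AlgebraicClosure N)).injective ?_⟩
    rw [map_pow, hβ, hb]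
  · right; right
    have h2 : mu (isK_bc hd hz (AlgebraicClosure N)) R₁ = tq (isK_bc hd hz (AlgebraicClosure N)) := by
      rw [hR2, h0, htq]
    have hne : mu (isK_bc hd hz (AlgebraicClosure N)) R₁ ≠ 0 := by
      rw [h2]
      exact tq_ne _
    have h3 := cfn_cube' (isK_bc hd hz (AlgebraicClosure N)) R₁ _ h2
    have hfix : ∀ σ : Gal N, σ (b * cfn (algebraMap N (AlgebraicClosure N) z)
        (-algebraMap N (AlgebraicClosure N) d) R₁ ^ 2) =
        b * cfn (algebraMap N (AlgebraicClosure N) z)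
        (-algebraMap N (AlgebraicClosure N) d) R₁ ^ 2 := by
      intro σ
      have h4 : σ (cfn (algebraMap N (AlgebraicClosure N) z)
          (-algebraMap N (AlgebraicClosure N) d) R₁) =
          cfn (algebraMap N (AlgebraicClosure N) z)
          (-algebraMap N (AlgebraicClosure N) d) (act (ck d) σ R₁) := by
        have h5 := (cfn_map (z := z) (σ : AlgebraicClosure N →ₐ[N] AlgebraicClosure N) (-d) R₁).symm
        rw [map_neg] at h5
        exact h5
      rw [map_mul, map_pow, h4, hadd σ, cfn_add' _ R₁ (c σ) hne (hmu σ), hk.act σ]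
      linear_combination (b * cfn (algebraMap N (AlgebraicClosure N) z)
        (-algebraMap N (AlgebraicClosure N) d) R₁ ^ 2) *
        (ch (isK_bc hd hz (AlgebraicClosure N)) (c σ) ^ 3 + 1) *
          ch_cube (isK_bc hd hz (AlgebraicClosure N)) (c σ)
    obtain ⟨β, hβ⟩ := Pool.Agent.Lib.MP_1a91b9_ntT.S9.fixed_elem (k := N) _ hfix
    refine ⟨β, (algebraMap N (AlgebraicClosure N)).injective ?_⟩
    rw [map_pow, hβ, mul_pow, hb, ← pow_mul, mul_comm 2 3, pow_mul, h3]
    simp only [map_mul, map_pow, map_ofNat]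
    ring
  · right; left
    obtain ⟨hn, e1⟩ : ∃ hn, -tq (isK_bc hd hz (AlgebraicClosure N)) =
        .some 0 (-algebraMap N (AlgebraicClosure N) d) hn := by
      rw [← tq_neg]
      exact ⟨_, rfl⟩
    have h2 : mu (isK_bc hd hz (AlgebraicClosure N)) R₁ = -tq (isK_bc hd hz (AlgebraicClosure N)) := by
      rw [hR2, h0, map_neg, htq]
    have hne : mu (isK_bc hd hz (AlgebraicClosure N)) R₁ ≠ 0 := by
      rw [h2]
      exact neg_ne_zero.2 (tq_ne _)
    have h3 := cfn_cube (isK_bc hd hz (AlgebraicClosure N)) R₁ hn (h2.trans e1)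
    have hfix : ∀ σ : Gal N, σ (b * cfn (algebraMap N (AlgebraicClosure N) z)
        (algebraMap N (AlgebraicClosure N) d) R₁) =
        b * cfn (algebraMap N (AlgebraicClosure N) z)
        (algebraMap N (AlgebraicClosure N) d) R₁ := by
      intro σ
      have h4 : σ (cfn (algebraMap N (AlgebraicClosure N) z)
          (algebraMap N (AlgebraicClosure N) d) R₁) =
          cfn (algebraMap N (AlgebraicClosure N) z)
          (algebraMap N (AlgebraicClosure N) d) (act (ck d) σ R₁) :=
        (cfn_map (z := z) (σ : AlgebraicClosure N →ₐ[N] AlgebraicClosure N) d R₁).symm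
      rw [map_mul, h4, hadd σ, cfn_add _ R₁ (c σ) hne (hmu σ), hk.act σ]
      linear_combination (b * cfn (algebraMap N (AlgebraicClosure N) z)
        (algebraMap N (AlgebraicClosure N) d) R₁) *
          ch_cube (isK_bc hd hz (AlgebraicClosure N)) (c σ)
    obtain ⟨β, hβ⟩ := Pool.Agent.Lib.MP_1a91b9_ntT.S9.fixed_elem (k := N) _ hfix
    refine ⟨-β, (algebraMap N (AlgebraicClosure N)).injective ?_⟩
    rw [map_pow, map_neg, hβ, neg_pow, mul_pow, hb, h3]
    simp only [map_mul, map_ofNat]
    ring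

end

end Pool.Agent.Lib.MP_1a91b9_ntS3.C
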