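import Pool.Agent.Lib.MP_1a91b9_ntS.C.GoodV
import Pool.Agent.Lib.MP_1a91b9_ntK.C.LocDefs

/-!
# MP_1a91b9_nt, converse of the descent by `√-3`: the local conditions at the good places

At a place where `3` and `D = 2 k` are units every `a` of valuation divisible by `3` satisfies the
local condition.
-/

set_option autoImplicit false

namespace Pool.Agent.Lib.MP_1a91b9_ntS3.C

open WithZero NumberField IsDedekindDomain
open Pool.Agent.Lib.MP_1a91b9_ntS.C
open Pool.Agent.Lib.MP_1a91b9_ntK.C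
open scoped Classical

section FF

variable {F : Type*} [Field F]

/-- `x` is the cube of a nonzero element. -/
def Ib (x : F) : Prop := ∃ r : F, r ≠ 0 ∧ r ^ 3 = x

theorem Ib.ne {x : F} (h : Ib x) : x ≠ 0 := by
  obtain ⟨r, h0, rfl⟩ := h
  exact pow_ne_zero 3 h0

theorem Ib.mul {x y : F} (h : Ib x) (h' : Ib y) : Ib (x * y) := by
  obtain ⟨r, h0, rfl⟩ := h
  obtain ⟨s, h1, rfl⟩ := h'
  exact ⟨r * s, mul_ne_zero h0 h1, mul_pow r s 3⟩

theorem Ib.inv {x : F} (h : Ib x) : Ib x⁻¹ := by
  obtain ⟨r, h0, rfl⟩ := h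
  exact ⟨r⁻¹, inv_ne_zero h0, inv_pow r 3⟩

theorem Ib.neg {x : F} (h : Ib x) : Ib (-x) := by
  obtain ⟨r, h0, rfl⟩ := h
  exact ⟨-r, neg_ne_zero.2 h0, by ring⟩

theorem ib_cube {x : F} (h : x ≠ 0) : Ib (x ^ 3) := ⟨x, h, rfl⟩

theorem Ib.of_mul {x y : F} (h : Ib x) (h' : Ib (x * y)) : Ib y := by
  have h1 := h.inv.mul h'
  rwa [inv_mul_cancel_left₀ h.ne] at h1

/-- there are at most three classes modulo cubes -/
theorem ib_cases [Finite F] {u x : F} (hu : u ≠ 0) (hx : x ≠ 0) (hn : ¬ Ib u) :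
    Ib x ∨ Ib (x * u) ∨ Ib (x * u ^ 2) := by
  have := Fintype.ofFinite F
  obtain ⟨g, hg⟩ := IsCyclic.exists_monoid_generator (α := Fˣ)
  obtain ⟨m, hm⟩ := Submonoid.mem_powers_iff _ _ |>.1 (hg (Units.mk0 x hx))
  obtain ⟨k, hk⟩ := Submonoid.mem_powers_iff _ _ |>.1 (hg (Units.mk0 u hu))
  have hm' : (g : F) ^ m = x := by
    have h := congrArg Units.val hm
    simpa using h
  have hk' : (g : F) ^ k = u := by
    have h := congrArg Units.val hk
    simpa using h
  have hg0 : (g : F) ≠ 0 := g.ne_zero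
  have key : ∀ n : ℕ, n % 3 = 0 → Ib ((g : F) ^ n) := by
    intro n hn
    obtain ⟨t, rfl⟩ : 3 ∣ n := Nat.dvd_of_mod_eq_zero hn
    exact ⟨(g : F) ^ t, pow_ne_zero t hg0, by rw [← pow_mul, mul_comm]⟩
  have hk3 : k % 3 ≠ 0 := fun h => hn (hk' ▸ key k h)
  rw [← hm', ← hk']
  have e1 : (g : F) ^ m * (g : F) ^ k = (g : F) ^ (m + k) := (pow_add _ _ _).symm
  have e2 : (g : F) ^ m * ((g : F) ^ k) ^ 2 = (g : F) ^ (m + 2 * k) := by
    rw [← pow_mul, ← pow_add, mul_comm k 2]
  rw [e1, e2]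
  have h3 : m % 3 = 0 ∨ (m + k) % 3 = 0 ∨ (m + 2 * k) % 3 = 0 := by
    have h4 : m % 3 = 0 ∨ m % 3 = 1 ∨ m % 3 = 2 := by omega
    have h5 : k % 3 = 1 ∨ k % 3 = 2 := by omega
    rcases h4 with h4 | h4 | h4 <;> rcases h5 with h5 | h5 <;> omega
  rcases h3 with h | h | h
  · exact Or.inl (key _ h)
  · exact Or.inr (Or.inl (key _ h))
  · exact Or.inr (Or.inr (key _ h))

/-- three consecutive classes: there is `x` in the class of `u` with `x + 1` in the class of `u²` -/
theorem exists_step [Finite F] {u : F} (hu : u ≠ 0) (hn : ¬ Ib u) :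
    ∃ x : F, Ib (x * u ^ 2) ∧ Ib ((x + 1) * u) := by
  have := Fintype.ofFinite F
  by_contra hcon
  push Not at hcon
  have hn2 : ¬ Ib (u ^ 2) := by
    intro h
    refine hn (h.of_mul ?_)
    have e : u ^ 2 * u = u ^ 3 := by ring
    rw [e]
    exact ib_cube hu
  -- the classes
  set C0 : Finset F := Finset.univ.filter fun x => Ib x with hC0
  set C1 : Finset F := Finset.univ.filter fun x => Ib (x * u ^ 2) with hC1
  have hcard : C1.card = C0.card := by
    refine Finset.card_bij' (fun x _ => x * u ^ 2) (fun x _ => x / u ^ 2) ?_ ?_ ?_ ?_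
    · intro x hx
      exact Finset.mem_filter.2 ⟨Finset.mem_univ _, (Finset.mem_filter.1 hx).2⟩
    · intro x hx
      refine Finset.mem_filter.2 ⟨Finset.mem_univ _, ?_⟩
      rw [div_mul_cancel₀ _ (pow_ne_zero 2 hu)]
      exact (Finset.mem_filter.1 hx).2
    · intro x _
      exact mul_div_cancel_right₀ x (pow_ne_zero 2 hu)
    · intro x _
      exact div_mul_cancel₀ x (pow_ne_zero 2 hu)
  have hm1 : (-1 : F) ∈ C0 := Finset.mem_filter.2 ⟨Finset.mem_univ _, ⟨-1, by simp, by ring⟩⟩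
  have hx0 : ∀ x ∈ C1, x ≠ 0 := by
    intro x hx h0
    have h := (Finset.mem_filter.1 hx).2.ne
    rw [h0, zero_mul] at h
    exact h rfl
  have hx1 : ∀ x ∈ C1, x + 1 ≠ 0 := by
    intro x hx h0
    have h := (Finset.mem_filter.1 hx).2
    have e : x = -1 := by linear_combination h0
    rw [e, neg_one_mul] at h
    exact hn2 (by simpa using h.neg)
  -- the map
  have hmap : C1.card ≤ (C0.erase (-1)).card := by
    refine Finset.card_le_card_of_injOn
      (fun x => if Ib (x + 1) then -(x + 1) else -((x + 1) / x)) ?_ ?_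
    · intro x hx
      have hx' : x ∈ C1 := hx
      have h0 := hx0 x hx'
      have h1 := hx1 x hx'
      have hxC := (Finset.mem_filter.1 hx').2
      show (if Ib (x + 1) then -(x + 1) else -((x + 1) / x)) ∈ C0.erase (-1)
      split_ifs with h2
      · refine Finset.mem_erase.2 ⟨fun h => h0 ?_,
          Finset.mem_filter.2 ⟨Finset.mem_univ _, h2.neg⟩⟩
        linear_combination -h
      · refine Finset.mem_erase.2 ⟨fun h => ?_,
          Finset.mem_filter.2 ⟨Finset.mem_univ _, ?_⟩⟩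
        · have h3 : (x + 1) / x = 1 := by linear_combination -h
          rw [div_eq_one_iff_eq h0] at h3
          exact one_ne_zero (by linear_combination h3 : (1 : F) = 0)
        · -- x + 1 is in the class of u
          have h3 : Ib ((x + 1) * u ^ 2) := by
            rcases ib_cases hu h1 hn with h4 | h4 | h4
            · exact absurd h4 h2
            · exact absurd h4 (hcon x hxC)
            · exact h4
          have h5 := h3.mul hxC.inv
          have e : (x + 1) * u ^ 2 * (x * u ^ 2)⁻¹ = (x + 1) / x := by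
            field_simp
          rw [e] at h5
          exact h5.neg
    · intro x hx y hy hxy
      have hx' : x ∈ C1 := hx
      have hy' : y ∈ C1 := hy
      have h0 := hx0 x hx'
      have h0' := hx0 y hy'
      have hxC := (Finset.mem_filter.1 hx').2
      have hyC := (Finset.mem_filter.1 hy').2
      have mix : ∀ s t : F, s ≠ 0 → t ≠ 0 → Ib (s * u ^ 2) → Ib (t * u ^ 2) →
          -(s + 1) ≠ -((t + 1) / t) := by
        intro s t hs ht hsC htC h
        have e1 : s * t = 1 := by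
          have h3 : s + 1 = (t + 1) / t := neg_injective h
          rw [eq_div_iff ht] at h3
          linear_combination h3
        have h5 := hsC.mul htC
        have e2 : s * u ^ 2 * (t * u ^ 2) = u ^ 3 * u := by
          linear_combination u ^ 4 * e1
        rw [e2] at h5
        exact hn ((ib_cube hu).of_mul h5)
      dsimp only at hxy
      split_ifs at hxy with h1 h2 h2
      · linear_combination -hxy
      · exact absurd hxy (mix x y h0 h0' hxC hyC)
      · exact absurd hxy.symm (mix y x h0' h0 hyC hxC)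
      · have h3 : (x + 1) / x = (y + 1) / y := neg_injective hxy
        rw [div_eq_div_iff h0 h0'] at h3
        linear_combination -h3
  rw [Finset.card_erase_of_mem hm1, hcard] at hmap
  have hpos : 0 < C0.card := Finset.card_pos.2 ⟨_, hm1⟩
  omega

/-- Over a finite field every class modulo cubes is the class of a point of `w² + D w = x³`. -/
theorem loc3_finite [Finite F] {D a : F} (hD : D ≠ 0) (ha : a ≠ 0) :
    Ib a ∨ Ib (a * D) ∨ Ib (a * D ^ 2) ∨ ∃ w : F, Ib (w * (w + D)) ∧ Ib (a * w) := by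
  by_cases h1 : Ib a
  · exact Or.inl h1
  by_cases h2 : Ib D
  · -- `D` is a cube
    have h3 : ¬ Ib (a ^ 2) := by
      intro h
      refine h1 (h.of_mul ?_)
      have e : a ^ 2 * a = a ^ 3 := by ring
      rw [e]
      exact ib_cube ha
    obtain ⟨x, hx, hx1⟩ := exists_step (pow_ne_zero 2 ha) h3
    refine Or.inr (Or.inr (Or.inr ⟨D * x, ?_, ?_⟩))
    · have h4 := (hx.mul hx1).mul (h2.mul h2)
      have e : x * (a ^ 2) ^ 2 * ((x + 1) * a ^ 2) * (D * D) =
          (a ^ 2) ^ 3 * (D * x * (D * x + D)) := by ring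
      rw [e] at h4
      exact (ib_cube (pow_ne_zero 2 ha)).of_mul h4
    · have h4 := hx.mul h2
      have e : x * (a ^ 2) ^ 2 * D = a ^ 3 * (a * (D * x)) := by ring
      rw [e] at h4
      exact (ib_cube ha).of_mul h4
  · rcases ib_cases hD ha h2 with h | h | h
    · exact Or.inl h
    · exact Or.inr (Or.inl h)
    · exact Or.inr (Or.inr (Or.inl h))

end FF

section

/-- a factor which is a cube does not matter -/
theorem cu_mul {N : Type*} [Field N] {ν : Valuation N ℤᵐ⁰} {l u b : N} (hb : b ≠ 0)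
    (h : Cu ν l (u / b ^ 3)) : Cu ν l u := by
  obtain ⟨c, hc, h⟩ := h
  refine ⟨b * c, mul_ne_zero hb hc, ?_⟩
  have e : u / (b * c) ^ 3 - 1 = u / b ^ 3 / c ^ 3 - 1 := by
    field_simp
  rwa [e]

variable {N : Type*} [Field N] [NumberField N] (v : HeightOneSpectrum (𝓞 N))

/-- a unit whose residue is a cube is a cube up to a factor near `1` -/
theorem cu_of_rs {l : N} (h3 : v.valuation N (3 * l) = 1) {u : N} {r : 𝓞 N ⧸ v.asIdeal}
    (h : Rs v u r) (hs : ∃ s, s ≠ 0 ∧ s ^ 3 = r) : Cu (v.valuation N) l u := by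
  obtain ⟨s, hs0, hs⟩ := hs
  obtain ⟨b, hb⟩ := rs_surj v s
  have hb1 : v.valuation N b = 1 := (rs_zero_iff v hb).2 hs0
  have hb0 : b ≠ 0 := by
    rintro rfl
    rw [map_zero] at hb1
    exact zero_ne_one hb1
  refine ⟨b, hb0, ?_⟩
  have h1 := rs_sub v h (rs_pow v hb 3)
  rw [hs, sub_self] at h1
  have e : u / b ^ 3 - 1 = (u - b ^ 3) / b ^ 3 := by
    field_simp
  rw [e, map_div₀, map_pow, hb1, one_pow, div_one, h3]
  refine lt_of_le_of_ne (rs_le v h1) fun h4 => ?_
  exact (rs_zero_iff v h1).1 h4 rfl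

/-- The local condition at the places prime to `3 D`, `D = 2 k`. -/
theorem gloc_good3 {l k a : N} (h3 : v.valuation N (3 * l) = 1)
    (hk : v.valuation N (2 * k) = 1) (ha : a ≠ 0)
    (he : ∃ b : N, v.valuation N a = v.valuation N b ^ 3) : GLoc (v.valuation N) l k a := by
  letI : Field (𝓞 N ⧸ v.asIdeal) := Ideal.Quotient.field v.asIdeal
  haveI : Finite (𝓞 N ⧸ v.asIdeal) := Ideal.finiteQuotientOfFreeOfNeBot _ v.ne_bot
  obtain ⟨D, hD⟩ := exists_rs v hk.le
  have hD0 : D ≠ 0 := (rs_zero_iff v hD).1 hk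
  obtain ⟨b, hb⟩ := he
  have hb0 : b ≠ 0 := by
    rintro rfl
    rw [map_zero, zero_pow three_ne_zero] at hb
    exact ha ((Valuation.zero_iff _).1 hb)
  have hu1 : v.valuation N (a / b ^ 3) = 1 := by
    rw [map_div₀, map_pow, hb]
    exact div_self (pow_ne_zero _ ((Valuation.ne_zero_iff _).2 hb0))
  obtain ⟨u, hu⟩ := exists_rs v hu1.le
  have hu0 : u ≠ 0 := (rs_zero_iff v hu).1 hu1
  rcases loc3_finite hD0 hu0 with h | h | h | ⟨w, h, h'⟩
  · exact Or.inl (cu_mul hb0 (cu_of_rs v h3 hu h))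
  · refine Or.inr (Or.inl (cu_mul hb0 ?_))
    have e : a * (2 * k) / b ^ 3 = a / b ^ 3 * (2 * k) := by ring
    rw [e]
    exact cu_of_rs v h3 (rs_mul v hu hD) h
  · refine Or.inr (Or.inr (Or.inl (cu_mul hb0 ?_)))
    have e : a * (2 * k) ^ 2 / b ^ 3 = a / b ^ 3 * (2 * k) ^ 2 := by ring
    rw [e]
    exact cu_of_rs v h3 (rs_mul v hu (rs_pow v hD 2)) h
  · obtain ⟨W, hW⟩ := rs_surj v w
    refine Or.inr (Or.inr (Or.inr ⟨W + k, ?_, cu_mul hb0 ?_⟩))
    · have e : (W + k) ^ 2 - k ^ 2 = W * (W + 2 * k) := by ring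
      rw [e]
      exact cu_of_rs v h3 (rs_mul v hW (rs_add v hW hD)) h
    · have e : a * (W + k - k) / b ^ 3 = a / b ^ 3 * W := by ring
      rw [e]
      exact cu_of_rs v h3 (rs_mul v hu hW) h'

/-- The local condition at the places where `3` and `D = 2 k` are units, for units `a`. -/
theorem gloc3_good {z l k a : N} (_hz : z ^ 2 + z + 1 = 0) (hl : v.valuation N (3 * l) = 1)
    (_h3 : v.valuation N 3 = 1) (hk : v.valuation N (2 * k) = 1) (ha : v.valuation N a = 1) :
    GLoc (v.valuation N) l k a := by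
  refine gloc_good3 v hl hk ?_ ⟨1, by rw [ha, map_one, one_pow]⟩
  rintro rfl
  rw [map_zero] at ha
  exact zero_ne_one ha

end

end Pool.Agent.Lib.MP_1a91b9_ntS3.C
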