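import Pool.Agent.Lib.MP_1a91b9_ntK.C.SelG

/-!
# MP_1a91b9_nt (cubic twists), converse of the descent: the row equations
-/

set_option autoImplicit false

namespace Pool.Agent.Lib.MP_1a91b9_ntS3.C

open NumberField Finset Pool.Agent.Lib.MP_1a91b9_ntK Pool.Agent.Lib.MP_1a91b9_ntK.C

noncomputable section

/-- The equations at the primes of `S`. -/
def Rows (S : Finset P3) (i j : ZMod 3) (E V : P3 → ZMod 3) (u : ZMod 3) : Prop :=
  ∀ q ∈ S, ∑ p ∈ S.erase q, V p * d3.s p q + u * d3.a q =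
      V q * (E q * (i * d3.a q + j * bq q + ∑ p ∈ S.erase q, E p * d3.s p q))

private theorem RowD_sq : ∀ x : ZMod 3, x ≠ 0 → x * x = 1 := by decide

private theorem RowD_dbl (S : Finset P3) (f g : P3 → ZMod 3) :
    ∑ q ∈ S, f q * ∑ p ∈ S.erase q, g p * d3.s p q =
      ∑ q ∈ S, ∑ p ∈ S, if p = q then 0 else f q * g p * d3.s p q := by
  refine sum_congr rfl fun q hq => ?_
  rw [← add_sum_erase S (fun p => if p = q then 0 else f q * g p * d3.s p q) hq, if_pos rfl,
    zero_add, mul_sum]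
  refine sum_congr rfl fun p hp => ?_
  rw [if_neg (mem_erase.1 hp).1]
  ring

/-- the sum of the rows, weighted by `E` -/
theorem Rows.sum {S : Finset P3} {i j : ZMod 3} {E V : P3 → ZMod 3} {u : ZMod 3}
    (hE : ∀ q ∈ S, E q ≠ 0) (h : Rows S i j E V u) :
    u * ∑ q ∈ S, E q * d3.a q = i * ∑ q ∈ S, V q * d3.a q + j * ∑ q ∈ S, V q * bq q := by
  have h1 : ∑ q ∈ S, E q * (∑ p ∈ S.erase q, V p * d3.s p q + u * d3.a q) =
      ∑ q ∈ S, V q * (i * d3.a q + j * bq q + ∑ p ∈ S.erase q, E p * d3.s p q) :=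
    sum_congr rfl fun q hq => by
      rw [h q hq]
      linear_combination (V q * (i * d3.a q + j * bq q + ∑ p ∈ S.erase q, E p * d3.s p q)) *
        RowD_sq _ (hE q hq)
  have h2 : ∑ q ∈ S, E q * ∑ p ∈ S.erase q, V p * d3.s p q =
      ∑ q ∈ S, V q * ∑ p ∈ S.erase q, E p * d3.s p q := by
    rw [RowD_dbl, RowD_dbl, sum_comm]
    refine sum_congr rfl fun p _ => sum_congr rfl fun q _ => ?_
    by_cases hpq : p = q
    · rw [if_pos hpq, if_pos hpq.symm]
    · rw [if_neg hpq, if_neg (Ne.symm hpq), d3_symm hpq]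
      ring
  simp only [mul_add, sum_add_distrib] at h1
  rw [h2] at h1
  have e1 : ∑ q ∈ S, E q * (u * d3.a q) = u * ∑ q ∈ S, E q * d3.a q := by
    rw [mul_sum]
    exact sum_congr rfl fun q _ => by ring
  have e2 : ∑ q ∈ S, V q * (i * d3.a q) = i * ∑ q ∈ S, V q * d3.a q := by
    rw [mul_sum]
    exact sum_congr rfl fun q _ => by ring
  have e3 : ∑ q ∈ S, V q * (j * bq q) = j * ∑ q ∈ S, V q * bq q := by
    rw [mul_sum]
    exact sum_congr rfl fun q _ => by ring
  rw [e1, e2, e3] at h1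
  linear_combination h1

end

end Pool.Agent.Lib.MP_1a91b9_ntS3.C
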