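import Pool.Agent.Lib.MP_1a91b9_ntS3.C.Defs
import Pool.Agent.Lib.MP_1a91b9_ntS3.C.RowD

/-!
# MP_1a91b9_nt (cubic twists), converse of the descent: the places of `S`, the class is not trivial
-/

set_option autoImplicit false
set_option linter.unusedSectionVars false

namespace Pool.Agent.Lib.MP_1a91b9_ntS3.C

open NumberField IsDedekindDomain WithZero Finset Pool.Agent.Lib.MP_1a91b9_ntT
open Pool.Agent.Lib.MP_1a91b9_ntH (wO s3 wO_quad coe_wO prime_s3 s3_sq)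
open Pool.Agent.Lib.MP_1a91b9_ntH.C (ideal_eq val_one val_lt val_le val_prime val_le_sq s3_prime
  coe_s3)
open Pool.Agent.Lib.MP_1a91b9_ntX.R (cs G3 cs_mul cs_pow cs_one)
open Pool.Agent.Lib.MP_1a91b9_ntK Pool.Agent.Lib.MP_1a91b9_ntK.C

noncomputable section

/-- the class times a power of `2 k` is a cube -/
theorem gloc_pow {L : Type*} [Field L] {ν : Valuation L ℤᵐ⁰} {l k a : L} {m : ℕ} (hm : m < 3)
    (h : Cu ν l (a * (2 * k) ^ m)) : GLoc ν l k a := by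
  interval_cases m
  · left
    rwa [pow_zero, mul_one] at h
  · right
    left
    rwa [pow_one] at h
  · right
    right
    left
    exact h

private theorem RowQ_m : ∀ V E : ZMod 3, E ≠ 0 → V + -(V * E) * E = 0 := by decide

/-- the places of `S` -/
theorem gp_q {S : Finset P3} {j i : ℕ} {E V : P3 → ℕ} {u : ℕ} (hE : ∀ q ∈ S, ¬ 3 ∣ E q)
    (h : Rows S i j (fun q => (E q : ZMod 3)) (fun q => (V q : ZMod 3)) u) {q : P3} (hq : q ∈ S)
    {k : K} (hk : 2 * k = ((s3 ^ j * mon S i E : 𝓞 K) : K)) :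
    GP ((pw q.1 q.prime).valuation K) lK k ((mon S u V : 𝓞 K) : K) := by
  have hEq : (E q : ZMod 3) ≠ 0 := fun h => hE q hq ((ZMod.natCast_eq_zero_iff _ 3).1 h)
  obtain ⟨m, hm, hm3⟩ : ∃ m : ℕ, (m : ZMod 3) = -((V q : ZMod 3) * (E q : ZMod 3)) ∧ m < 3 :=
    ⟨(-((V q : ZMod 3) * (E q : ZMod 3))).val, ZMod.natCast_zmod_val _, ZMod.val_lt _⟩
  refine .loc (gloc_pow hm3 ?_)
  rw [hk]
  have hmem := mem_pw q.1 q.prime
  have hqs : ¬ s3 ∣ q.1 := q.in3.not_s3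
  have hl3 := val_three_l_le (pw q.1 q.prime)
  obtain ⟨J, hJ⟩ : ∃ J : ℕ, J = u + i * m := ⟨_, rfl⟩
  obtain ⟨W, hW⟩ : ∃ W : P3 → ℕ, W = fun p => V p + E p * m := ⟨_, rfl⟩
  have e2 : mon S u V * (s3 ^ j * mon S i E) ^ m =
      q.1 ^ W q * (s3 ^ (j * m) * mon (S.erase q) J W) := by
    have e3 : mon S u V * (s3 ^ j * mon S i E) ^ m = s3 ^ (j * m) * mon S J W := by
      rw [mul_pow, mon_pow, hJ, hW, ← mon_mul, ← pow_mul]
      ring
    rw [e3, mon_erase hq]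
    ring
  have e4 : ((mon S u V : 𝓞 K) : K) * ((s3 ^ j * mon S i E : 𝓞 K) : K) ^ m =
      ((q.1 ^ W q * (s3 ^ (j * m) * mon (S.erase q) J W) : 𝓞 K) : K) := by
    rw [← e2]
    push_cast
    rfl
  rw [e4]
  have h6 := RowQ_m (V q) (E q) hEq
  obtain ⟨c, hc⟩ : 3 ∣ W q := by
    rw [← ZMod.natCast_eq_zero_iff, hW]
    push_cast
    rw [hm]
    linear_combination h6
  have hnd := not_dvd_monj (notMem_erase q S) (j * m) J W
  have h5 : Cu ((pw q.1 q.prime).valuation K) lK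
      ((s3 ^ (j * m) * mon (S.erase q) J W : 𝓞 K) : K) := by
    rw [cu_iff q.prime hqs hmem hnd, cs_monj (notMem_erase q S)]
    have h9 : ∑ p ∈ S.erase q, ((W p : ℕ) : ZMod 3) * d3.s p q =
        ∑ p ∈ S.erase q, (V p : ZMod 3) * d3.s p q +
          m * ∑ p ∈ S.erase q, (E p : ZMod 3) * d3.s p q := by
      rw [mul_sum, ← sum_add_distrib]
      refine sum_congr rfl fun p _ => ?_
      rw [hW]
      push_cast
      ring
    rw [h9, hJ]
    push_cast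
    rw [hm]
    linear_combination h q hq
  have e5 : ((q.1 ^ W q * (s3 ^ (j * m) * mon (S.erase q) J W) : 𝓞 K) : K) =
      ((s3 ^ (j * m) * mon (S.erase q) J W : 𝓞 K) : K) * ((q.1 : K) ^ c) ^ 3 := by
    rw [hc]
    push_cast
    ring
  rw [e5]
  exact h5.mul hl3 (Cu.cube lK_ne (pow_ne_zero c (coe_ne q.ne_zero)))

/-- the class is not trivial -/
theorem nontriv {S : Finset P3} {j i : ℕ} {E V : P3 → ℕ} {u t : ℕ} {k b : K}
    (hk : 2 * k = ((s3 ^ j * mon S i E : 𝓞 K) : K))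
    (h : ((mon S u V : 𝓞 K) : K) * (2 * k) ^ t = b ^ 3) :
    ∃ c : ZMod 3, (∀ q ∈ S, (V q : ZMod 3) = c * (E q : ZMod 3)) ∧ (u : ZMod 3) = c * i ∧
      c * (j : ZMod 3) = 0 := by
  obtain ⟨J, hJ⟩ : ∃ J : ℕ, J = u + i * t := ⟨_, rfl⟩
  obtain ⟨W, hW⟩ : ∃ W : P3 → ℕ, W = fun p => V p + E p * t := ⟨_, rfl⟩
  have e2 : mon S u V * (s3 ^ j * mon S i E) ^ t = s3 ^ (j * t) * mon S J W := by
    rw [mul_pow, mon_pow, hJ, hW, ← mon_mul, ← pow_mul]
    ring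
  have e3 : ((s3 ^ (j * t) * mon S J W : 𝓞 K) : K) = b ^ 3 := by
    rw [← h, hk, ← e2]
    push_cast
    rfl
  have hx0 : s3 ^ (j * t) * mon S J W ≠ 0 :=
    mul_ne_zero (pow_ne_zero _ prime_s3.ne_zero) (mon_ne S J W)
  have hb0 : b ≠ 0 := by
    rintro rfl
    rw [zero_pow (by norm_num)] at e3
    exact coe_ne hx0 e3
  have hcv : ∀ v : HeightOneSpectrum (𝓞 K), Cv (v.valuation K (b ^ 3)) := by
    intro v
    obtain ⟨n, hn⟩ := exists_nu (v.valuation K) hb0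
    refine ⟨n, ?_⟩
    rw [map_pow, hn, ← exp_nsmul]
    congr 1
  -- the places of `S`
  have hWq : ∀ q ∈ S, 3 ∣ W q := by
    intro q hq
    have h1 := hcv (pw q.1 q.prime)
    have e4 : s3 ^ (j * t) * mon S J W = q.1 ^ W q * (s3 ^ (j * t) * mon (S.erase q) J W) := by
      rw [mon_erase hq]
      ring
    rw [← e3, e4, val_pow_mul q.prime (mem_pw q.1 q.prime)
      (not_dvd_monj (notMem_erase q S) (j * t) J W), cv_exp] at h1
    omega
  -- the place above `3`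
  have hmem3 := mem_pw s3 prime_s3
  have hjt : 3 ∣ j * t := by
    have h1 := hcv (pw s3 prime_s3)
    rw [← e3, val_pow_mul prime_s3 hmem3 (s3_not_dvd_mon S J W), cv_exp] at h1
    omega
  obtain ⟨d, hd⟩ := hjt
  have hns : ¬ s3 ∣ wO ^ J * 1 := by
    rw [mul_one]
    intro h2
    exact isUnit_notMem (v := pw s3 prime_s3) (wO_unit.pow _) (Ideal.mem_span_singleton.2 h2)
  have hprod : ∏ q ∈ S, q.1 ^ W q = (∏ q ∈ S, q.1 ^ (W q / 3)) ^ 3 := by
    rw [← prod_pow]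
    refine prod_congr rfl fun q hq => ?_
    rw [← pow_mul, Nat.div_mul_cancel (hWq q hq)]
  obtain ⟨P, hP⟩ : ∃ P : 𝓞 K, P = s3 ^ d * ∏ q ∈ S, q.1 ^ (W q / 3) := ⟨_, rfl⟩
  have hc0 : P ≠ 0 := by
    rw [hP]
    exact mul_ne_zero (pow_ne_zero _ prime_s3.ne_zero)
      (prod_ne_zero_iff.2 fun q _ => pow_ne_zero _ q.ne_zero)
  have e6 : s3 ^ (j * t) * mon S J W = wO ^ J * 1 * P ^ 3 := by
    unfold mon
    rw [hprod, hd, hP]
    ring
  have hcb : Cb ((pw s3 prime_s3).valuation K) lK ((wO ^ J * 1 : 𝓞 K) : K) := by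
    refine Cb.of_mul_cube (s := (P : K)) (coe_ne hc0) ?_
    have e5 : ((wO ^ J * 1 : 𝓞 K) : K) * (P : K) ^ 3 = b ^ 3 := by
      rw [← e3, e6]
      push_cast
      rfl
    rw [e5]
    exact (Cu.cube lK_ne hb0).cb
  obtain ⟨hJ3, -⟩ := pm_of in3_one ((cb_iff hmem3 hns).1 hcb)
  refine ⟨-(t : ZMod 3), fun q hq => ?_, ?_, ?_⟩
  · have h1 := (ZMod.natCast_eq_zero_iff _ 3).2 (hWq q hq)
    rw [hW] at h1
    push_cast at h1
    linear_combination h1
  · have h1 := (ZMod.natCast_eq_zero_iff _ 3).2 hJ3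
    rw [hJ] at h1
    push_cast at h1
    linear_combination h1
  · have h1 : ((j * t : ℕ) : ZMod 3) = 0 := (ZMod.natCast_eq_zero_iff _ 3).2 ⟨d, hd⟩
    push_cast at h1
    linear_combination -h1

end

end Pool.Agent.Lib.MP_1a91b9_ntS3.C
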