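import Pool.Agent.Lib.MP_1a91b9_ntS3.C.At3j
import Pool.Agent.Lib.MP_1a91b9_ntS3.C.Good3
import Pool.Agent.Lib.MP_1a91b9_ntS3.C.RowQ
import Pool.Agent.Lib.MP_1a91b9_ntS3.C.BadB
import Pool.Agent.Lib.MP_1a91b9_ntS3.C.Conv
import Pool.Agent.Lib.MP_1a91b9_ntK.C.ShaWj

/-!
# MP_1a91b9_nt (cubic twists), converse of the descent: assembly
-/

set_option autoImplicit false

namespace Pool.Agent.Lib.MP_1a91b9_ntS3.C

open NumberField IsDedekindDomain WithZero Finset WeierstrassCurve Pool.Agent.Lib.MP_1a91b9_ntT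
open Pool.Agent.Lib.MP_1a91b9_ntT3.S9 (ShaP)
open Pool.Agent.Lib.MP_1a91b9_ntH (wO s3 wO_quad coe_wO prime_s3 s3_sq om_quad)
open Pool.Agent.Lib.MP_1a91b9_ntH.C (val_one)
open Pool.Agent.Lib.MP_1a91b9_ntK Pool.Agent.Lib.MP_1a91b9_ntK.C

noncomputable section

theorem complex_K (v : InfinitePlace K) : v.IsComplex := by
  rw [← InfinitePlace.not_isReal_iff_isComplex]
  intro h
  have h3 := congrArg (InfinitePlace.embedding_of_isReal h) om_quad
  rw [map_add, map_add, map_pow, map_one, map_zero] at h3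
  nlinarith [sq_nonneg (2 * InfinitePlace.embedding_of_isReal h om + 1)]

/-- a monomial which is a cube of `K` -/
theorem cube_mon {S : Finset P3} {j i : ℕ} {E : P3 → ℕ} {b : K}
    (h : b ^ 3 = ((s3 ^ j * mon S i E : 𝓞 K) : K)) : (∀ q ∈ S, 3 ∣ E q) ∧ 3 ∣ j ∧ 3 ∣ i := by
  have hx0 : s3 ^ j * mon S i E ≠ 0 := monj_ne S j i E
  have hb0 : b ≠ 0 := by
    rintro rfl
    rw [zero_pow (by norm_num)] at h
    exact coe_ne hx0 h.symm
  have hcv : ∀ v : HeightOneSpectrum (𝓞 K), Cv (v.valuation K (b ^ 3)) := by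
    intro v
    obtain ⟨n, hn⟩ := exists_nu (v.valuation K) hb0
    refine ⟨n, ?_⟩
    rw [map_pow, hn, ← exp_nsmul]
    congr 1
  have hWq : ∀ q ∈ S, 3 ∣ E q := by
    intro q hq
    have h1 := hcv (pw q.1 q.prime)
    have e4 : s3 ^ j * mon S i E = q.1 ^ E q * (s3 ^ j * mon (S.erase q) i E) := by
      rw [mon_erase hq]
      ring
    rw [h, e4, val_pow_mul q.prime (mem_pw q.1 q.prime)
      (not_dvd_monj (notMem_erase q S) j i E), cv_exp] at h1
    omega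
  have hmem3 := mem_pw s3 prime_s3
  have hj : 3 ∣ j := by
    have h1 := hcv (pw s3 prime_s3)
    rw [h, val_pow_mul prime_s3 hmem3 (s3_not_dvd_mon S i E), cv_exp] at h1
    omega
  refine ⟨hWq, hj, ?_⟩
  obtain ⟨d, hd⟩ := hj
  have hns : ¬ s3 ∣ wO ^ i * 1 := by
    rw [mul_one]
    intro h2
    exact isUnit_notMem (v := pw s3 prime_s3) (wO_unit.pow _) (Ideal.mem_span_singleton.2 h2)
  have hprod : ∏ q ∈ S, q.1 ^ E q = (∏ q ∈ S, q.1 ^ (E q / 3)) ^ 3 := by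
    rw [← prod_pow]
    refine prod_congr rfl fun q hq => ?_
    rw [← pow_mul, Nat.div_mul_cancel (hWq q hq)]
  obtain ⟨P, hP⟩ : ∃ P : 𝓞 K, P = s3 ^ d * ∏ q ∈ S, q.1 ^ (E q / 3) := ⟨_, rfl⟩
  have hc0 : P ≠ 0 := by
    rw [hP]
    exact mul_ne_zero (pow_ne_zero _ prime_s3.ne_zero)
      (prod_ne_zero_iff.2 fun q _ => pow_ne_zero _ q.ne_zero)
  have e6 : s3 ^ j * mon S i E = wO ^ i * 1 * P ^ 3 := by
    unfold mon
    rw [hprod, hd, hP]
    ring
  have hcb : Cb ((pw s3 prime_s3).valuation K) lK ((wO ^ i * 1 : 𝓞 K) : K) := by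
    refine Cb.of_mul_cube (s := (P : K)) (coe_ne hc0) ?_
    have e5 : ((wO ^ i * 1 : 𝓞 K) : K) * (P : K) ^ 3 = b ^ 3 := by
      rw [h, e6]
      push_cast
      rfl
    rw [e5]
    exact (Cu.cube lK_ne hb0).cb
  exact (pm_of in3_one ((cb_iff hmem3 hns).1 hcb)).1

theorem three_notMem {v : HeightOneSpectrum (𝓞 K)} (h : s3 ∉ v.asIdeal) : (3 : 𝓞 K) ∉ v.asIdeal := by
  intro h3
  apply h
  refine v.isPrime.mem_of_pow_mem 2 ?_
  rw [s3_sq]
  exact neg_mem h3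

/-- **the converse**: a solution of the local conditions outside the line of `D` -/
theorem conv_core {S : Finset P3} {j i : ℕ} {E V : P3 → ℕ} {u : ℕ} (hE : ∀ q ∈ S, ¬ 3 ∣ E q)
    (hR : Rows S i j (fun q => (E q : ZMod 3)) (fun q => (V q : ZMod 3)) u)
    {k : K} (hk : 2 * k = ((s3 ^ j * mon S i E : 𝓞 K) : K)) (hc : ¬ ∃ r : K, r ^ 3 = 2 * k)
    (h3 : GP v3 lK k ((mon S u V : 𝓞 K) : K))
    (hn : ¬ ∃ c : ZMod 3, (∀ q ∈ S, (V q : ZMod 3) = c * (E q : ZMod 3)) ∧ (u : ZMod 3) = c * i ∧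
      c * (j : ZMod 3) = 0)
    {W : WeierstrassCurve K} (hW : W = ck k) (hfin : Finite W.toAffine.Point) :
    Nat.card (ShaP 3 W) ≠ 1 := by
  intro hcard
  have hk0 : k ≠ 0 := two_k_ne (monj_ne S j i E) hk
  have hgp : ∀ v : HeightOneSpectrum (𝓞 K), GP (v.valuation K) lK k ((mon S u V : 𝓞 K) : K) := by
    intro v
    by_cases hs : s3 ∈ v.asIdeal
    · have e := eq_pw prime_s3 hs
      subst e
      exact h3
    by_cases hq : ∃ q ∈ S, q.1 ∈ v.asIdeal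
    · obtain ⟨q, hq, hqv⟩ := hq
      have e := eq_pw q.prime hqv
      subst e
      exact gp_q hE hR hq hk
    · have hv : ∀ q ∈ S, q.1 ∉ v.asIdeal := fun q hq' h => hq ⟨q, hq', h⟩
      have h3v : v.valuation K 3 = 1 := by
        have h5 := val_one (three_notMem hs)
        have e : (((3 : 𝓞 K)) : K) = 3 := map_ofNat (algebraMap (𝓞 K) K) 3
        rwa [e] at h5
      have hlv : v.valuation K lK = 1 := val_one hs
      refine .loc (gloc3_good v om_quad ?_ h3v ?_ ?_)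
      · rw [map_mul, h3v, hlv, one_mul]
      · rw [hk]
        refine val_one fun h1 => ?_
        rcases v.isPrime.mem_or_mem h1 with h2 | h2
        · exact hs (v.isPrime.mem_of_pow_mem _ h2)
        · exact mon_notMem hv i E h2
      · exact val_one (mon_notMem hv u V)
  have ha : ((mon S u V : 𝓞 K) : K) ≠ 0 := coe_ne (mon_ne S u V)
  rcases conv_sel3 hk0 om_quad hc complex_K ha
    (fun v => (lt_of_gp hk0 om_quad v lK_sq (hgp v)).2) hW hfin hcard with ⟨r, hr⟩ | ⟨r, hr⟩ | ⟨r, hr⟩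
  · exact hn (nontriv (t := 0) hk (by rw [pow_zero, mul_one]; exact hr.symm))
  · exact hn (nontriv (t := 1) hk (by rw [pow_one]; exact hr.symm))
  · exact hn (nontriv (t := 2) hk hr.symm)

/-- the exponents in `ZMod 3` -/
theorem conv_z {S : Finset P3} {j : ℕ} {κ : ZMod 3} {e V : P3 → ZMod 3} {u : ZMod 3}
    (he : ∀ q ∈ S, e q ≠ 0) (hR : Rows S κ j e V u) {D D₀ : 𝓞 K}
    (hD₀ : D₀ = s3 ^ j * mon S κ.val fun q => (e q).val) (hD : D = D₀ ∨ D = -D₀)
    (hnc : S.Nonempty ∨ (j : ZMod 3) ≠ 0 ∨ κ ≠ 0)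
    (h3 : ∀ k : K, 2 * k = (D₀ : K) → GP v3 lK k ((mon S u.val fun q => (V q).val : 𝓞 K) : K))
    (hn : ¬ ∃ c : ZMod 3, (∀ q ∈ S, V q = c * e q) ∧ u = c * κ ∧ c * (j : ZMod 3) = 0)
    (hfin : Finite (wd (D : K)).toAffine.Point) : Nat.card (ShaP 3 (wd (D : K))) ≠ 1 := by
  obtain ⟨k, hk⟩ : ∃ k : K, 2 * k = (D₀ : K) := ⟨(D₀ : K) / 2, by ring⟩
  have hDK : (D : K) = 2 * k ∨ (D : K) = -(2 * k) := by
    rcases hD with h | h
    · left
      rw [h, hk]
    · right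
      rw [h, hk]
      push_cast
      rfl
  obtain ⟨e1, -, e3⟩ := wd_of_ck hDK 3
  rw [e3]
  have hE : ∀ q ∈ S, ¬ 3 ∣ (e q).val := by
    intro q hq h
    have h4 := (ZMod.natCast_eq_zero_iff (e q).val 3).2 h
    rw [ZMod.natCast_zmod_val] at h4
    exact he q hq h4
  have hk' : 2 * k = ((s3 ^ j * mon S κ.val fun q => (e q).val : 𝓞 K) : K) := by
    rw [hk, hD₀]
  refine conv_core (S := S) (j := j) (i := κ.val) (E := fun q => (e q).val)
    (V := fun q => (V q).val) (u := u.val) hE ?_ hk' ?_ (h3 k hk) ?_ rfl (e1.1 hfin)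
  · simp only [ZMod.natCast_zmod_val]
    exact hR
  · rintro ⟨r, hr⟩
    rw [hk'] at hr
    obtain ⟨h1, h2, h4⟩ := cube_mon hr
    rcases hnc with h | h | h
    · obtain ⟨q, hq⟩ := h
      exact hE q hq (h1 q hq)
    · exact h ((ZMod.natCast_eq_zero_iff j 3).2 h2)
    · apply h
      have h5 := (ZMod.natCast_eq_zero_iff κ.val 3).2 h4
      rwa [ZMod.natCast_zmod_val] at h5
  · simp only [ZMod.natCast_zmod_val]
    exact hn

/-- the numbers in `ZMod 3` -/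
theorem sum_val (S : Finset P3) (V b : P3 → ZMod 3) :
    ∑ q ∈ S, (((V q).val : ℕ) : ZMod 3) * b q = ∑ q ∈ S, V q * b q := by
  simp only [ZMod.natCast_zmod_val]

theorem conv_u0 {S : Finset P3} {κ : ZMod 3} {e V : P3 → ZMod 3}
    (he : ∀ q ∈ S, e q ≠ 0) (hR : Rows S κ 0 e V 0) (hA : ∑ q ∈ S, V q * d3.a q = 0)
    (hS : S.Nonempty)
    (hn : ¬ ∃ c : ZMod 3, (∀ q ∈ S, V q = c * e q) ∧ 0 = c * κ) {D : 𝓞 K}
    (hD : D = Dk κ e S ∨ D = -Dk κ e S)
    (hfin : Finite (wd (D : K)).toAffine.Point) : Nat.card (ShaP 3 (wd (D : K))) ≠ 1 := by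
  refine conv_z (j := 0) (κ := κ) (e := e) (V := V) (u := 0) he ?_ (D₀ := Dk κ e S) ?_ hD
    (Or.inl hS) ?_ ?_ hfin
  · rw [Nat.cast_zero]
    exact hR
  · rw [pow_zero, one_mul]
    rfl
  · intro k hk
    refine gp_three0 (S := S) (i := κ.val) (E := fun q => (e q).val) (V := fun q => (V q).val)
      (u := (0 : ZMod 3).val) hk ?_ ?_
    · rw [ZMod.natCast_zmod_val]
    · rw [sum_val]
      exact hA
  · rintro ⟨c, h1, h2, -⟩
    exact hn ⟨c, h1, h2⟩

theorem nonempty_of {S : Finset P3} {V : P3 → ZMod 3} (h : ¬ ∀ q ∈ S, V q = 0) : S.Nonempty := by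
  by_contra h0
  rw [not_nonempty_iff_eq_empty] at h0
  subst h0
  exact h fun q hq => absurd hq (notMem_empty q)

/-- **converse**, `D` prime to `√-3`, `k ≠ 0` -/
theorem conv_A {k : ZMod 3} (hk : k ≠ 0) {e : P3 → ZMod 3} {S : Finset P3}
    (he : ∀ q ∈ S, e q ≠ 0) (h : (NK k e S).det = 0) {D : 𝓞 K}
    (hD : D = Dk k e S ∨ D = -Dk k e S) (hfin : Finite (wd (D : K)).toAffine.Point) :
    Nat.card (ShaP 3 (wd (D : K))) ≠ 1 := by
  obtain ⟨V, h1, h2, h3⟩ := badB1 hk he h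
  refine conv_u0 he h1 h2 (nonempty_of h3) ?_ hD hfin
  rintro ⟨c, h4, h5⟩
  have hc : c = 0 := (mul_eq_zero.1 h5.symm).resolve_right hk
  exact h3 fun q hq => by rw [h4 q hq, hc, zero_mul]

/-- **converse**, `D` prime to `√-3`, `k = 0`, `D ≠ ± 1` modulo `3 √-3` -/
theorem conv_B {e : P3 → ZMod 3} {S : Finset P3} (he : ∀ q ∈ S, e q ≠ 0)
    (hB : ∑ q ∈ S, e q * abar q.1 ≠ 0)
    (h : CZ (fun i p => d3.s i p * e p) (fun q : P3 => abar q.1) S = 0) {D : 𝓞 K}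
    (hD : D = Dk 0 e S ∨ D = -Dk 0 e S) (hfin : Finite (wd (D : K)).toAffine.Point) :
    Nat.card (ShaP 3 (wd (D : K))) ≠ 1 := by
  obtain ⟨V, h1, h2, h3⟩ := badB0 he hB h
  refine conv_u0 he h1 h2 (nonempty_of h3) ?_ hD hfin
  rintro ⟨c, h4, -⟩
  have hE : ∑ q ∈ S, e q * d3.a q ≠ 0 := by
    intro h0
    apply hB
    rw [← neg_eq_zero, ← sum_neg_distrib, ← h0]
    exact sum_congr rfl fun q _ => by rw [abar_d3]; ring
  have h5 : c * ∑ q ∈ S, e q * d3.a q = 0 := by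
    rw [← h2, mul_sum]
    exact sum_congr rfl fun q hq => by rw [h4 q hq]; ring
  have hc : c = 0 := (mul_eq_zero.1 h5).resolve_right hE
  exact h3 fun q hq => by rw [h4 q hq, hc, zero_mul]

/-- **converse**, `D = ± 1` modulo `3 √-3` -/
theorem conv_H {e : P3 → ZMod 3} {S : Finset P3} (hS0 : S.Nonempty) (he : ∀ q ∈ S, e q ≠ 0)
    (hS : ∑ q ∈ S, e q * aP q = 0) (h : kapH d3.s aP bP e S = 0) {D : 𝓞 K}
    (hD : D = Dk 0 e S ∨ D = -Dk 0 e S) (hfin : Finite (wd (D : K)).toAffine.Point) :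
    Nat.card (ShaP 3 (wd (D : K))) ≠ 1 := by
  have h0 := badBH hS0 he hS h
  unfold GoodG at h0
  push Not at h0
  obtain ⟨V, u, s, hu, hA, hR, hn⟩ := h0
  have hE : ∑ q ∈ S, e q * d3.a q = 0 := by
    rw [← neg_eq_zero, ← sum_neg_distrib, ← hS]
    exact sum_congr rfl fun q _ => by rw [show aP q = -d3.a q from abar_d3 q]; ring
  refine conv_z (j := 0) (κ := 0) (e := e) (V := V) (u := u) he ?_ (D₀ := Dk 0 e S) ?_ hD
    (Or.inl hS0) ?_ ?_ hfin
  · rw [Nat.cast_zero]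
    exact hR
  · rw [pow_zero, one_mul]
    rfl
  · intro k hk
    refine gp_threeH (S := S) (E := fun q => (e q).val) (V := fun q => (V q).val)
      (u := u.val) (s := s.val) ?_ hk ?_ ?_
    · rw [sum_val]
      exact hE
    · rw [ZMod.natCast_zmod_val, ZMod.natCast_zmod_val]
      exact hu
    · rw [sum_val, sum_val, ZMod.natCast_zmod_val]
      exact hA
  · rintro ⟨c, h1, h2, -⟩
    exact hn c h1 h2 (mul_zero c)

/-- **converse**, `√-3 ∣ D` exactly -/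
theorem conv_J1 {k : ZMod 3} {e : P3 → ZMod 3} {S : Finset P3} (he : ∀ q ∈ S, e q ≠ 0)
    (h : (NJ1 k e S).det = 0) {D : 𝓞 K}
    (hD : D = Dj k 1 e S ∨ D = -Dj k 1 e S) (hfin : Finite (wd (D : K)).toAffine.Point) :
    Nat.card (ShaP 3 (wd (D : K))) ≠ 1 := by
  have h0 := badBJ1 he h
  unfold GoodG at h0
  push Not at h0
  obtain ⟨V, u, s, hu, hA, hR, hn⟩ := h0
  have hRow : Rows S k 1 e V u := hR
  have hsum := hRow.sum he
  refine conv_z (j := 1) (κ := k) (e := e) (V := V) (u := u) he ?_ (D₀ := Dj k 1 e S) rfl hD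
    (Or.inr (Or.inl (by decide))) ?_ ?_ hfin
  · rw [Nat.cast_one]
    exact hRow
  · intro κ hκ
    refine gp_three1 (S := S) (i := k.val) (E := fun q => (e q).val) (V := fun q => (V q).val)
      (u := u.val) (s := s.val) hκ ?_ ?_ ?_
    · rw [ZMod.natCast_zmod_val, ZMod.natCast_zmod_val]
      exact hu
    · rw [sum_val, ZMod.natCast_zmod_val, ZMod.natCast_zmod_val]
      exact hA
    · rw [sum_val, sum_val, sum_val, ZMod.natCast_zmod_val, ZMod.natCast_zmod_val]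
      linear_combination hsum
  · rintro ⟨c, h1, h2, h4⟩
    rw [Nat.cast_one] at h4
    exact hn c h1 h2 h4

/-- **converse**, `√-3 ^ 2 ∣ D` -/
theorem conv_J2 {k : ZMod 3} {e : P3 → ZMod 3} {S : Finset P3} (he : ∀ q ∈ S, e q ≠ 0)
    (h : (NJ k 2 e S).det = 0) {D : 𝓞 K}
    (hD : D = Dj k 2 e S ∨ D = -Dj k 2 e S) (hfin : Finite (wd (D : K)).toAffine.Point) :
    Nat.card (ShaP 3 (wd (D : K))) ≠ 1 := by
  have h0 := badBJ2 he h
  unfold GoodG at h0
  push Not at h0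
  obtain ⟨V, u, s, hu, hA, hR, hn⟩ := h0
  have hRow : Rows S k 2 e V u := hR
  have hsum := hRow.sum he
  refine conv_z (j := 2) (κ := k) (e := e) (V := V) (u := u) he ?_ (D₀ := Dj k 2 e S) rfl hD
    (Or.inr (Or.inl (by decide))) ?_ ?_ hfin
  · rw [Nat.cast_ofNat]
    exact hRow
  · intro κ hκ
    refine gp_three2 (S := S) (i := k.val) (E := fun q => (e q).val) (V := fun q => (V q).val)
      (u := u.val) (s := s.val) hκ ?_ ?_ ?_
    · rw [ZMod.natCast_zmod_val]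
      linear_combination hu
    · rw [sum_val, ZMod.natCast_zmod_val]
      linear_combination hA
    · rw [sum_val, sum_val, sum_val, ZMod.natCast_zmod_val, ZMod.natCast_zmod_val]
      linear_combination hsum
  · rintro ⟨c, h1, h2, h4⟩
    rw [Nat.cast_ofNat] at h4
    exact hn c h1 h2 h4

end

end Pool.Agent.Lib.MP_1a91b9_ntS3.C
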