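import Pool.Agent.Lib.MP_1a91b9_ntS3.C.Defs

/-!
# MP_1a91b9_nt (cubic twists), converse of the descent: the local images at the place above 3
-/

set_option autoImplicit false
set_option linter.unusedSectionVars false

namespace Pool.Agent.Lib.MP_1a91b9_ntS3.C

open NumberField IsDedekindDomain WithZero Finset Pool.Agent.Lib.MP_1a91b9_ntT
open Pool.Agent.Lib.MP_1a91b9_ntH (wO s3 wO_quad coe_wO prime_s3 s3_sq om_quad cp eq_cp cp_coords
  coords_inj)
open Pool.Agent.Lib.MP_1a91b9_ntH.C (ideal_eq val_one val_lt val_le val_prime val_le_sq s3_prime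
  coe_s3)
open Pool.Agent.Lib.MP_1a91b9_ntK Pool.Agent.Lib.MP_1a91b9_ntK.C

noncomputable section

/-! ### general fields -/

section

variable {L : Type*} [Field L] [CharZero L] {ν : Valuation L ℤᵐ⁰} {l k : L}

theorem GP.of_sq {x : L} (hl0 : l ≠ 0) (hx0 : x ≠ 0) (h : GP ν l k (x ^ 2)) : GP ν l k x := by
  have h1 : GP ν l k ((x⁻¹) ^ 3) := .loc (Or.inl (Cu.cube hl0 (inv_ne_zero hx0)))
  have h2 := (h.pow (n := 2) (by norm_num)).mul h1
  have e : (x ^ 2) ^ 2 * x⁻¹ ^ 3 = x := by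
    field_simp
  rwa [e] at h2

/-- `a` from a product with a power -/
theorem GP.of_mul_pow {a x : L} (hl0 : l ≠ 0) (hx0 : x ≠ 0) (s : ℕ) (h : GP ν l k (a * x ^ s))
    (hx : GP ν l k x) : GP ν l k a := by
  rcases Nat.eq_zero_or_pos s with rfl | h0
  · rwa [pow_zero, mul_one] at h
  · exact GP.of_mul hl0 (pow_ne_zero s hx0) h (hx.pow h0.ne')

theorem pt_unit (hl2 : l ^ 2 = -3) (hl1 : ν l = exp (-1)) (hk : ν k = 1) {ε t : L}
    (hε : ε ^ 2 = 1) (ht : ν t ≤ 1) (h : ν (t + k * ε) < 1) : GLoc ν l k (1 + 3 * l * t) := by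
  have h3l := nu_three_l (ν := ν) hl2 hl1
  have hl0 : l ≠ 0 := by
    rintro rfl
    rw [map_zero] at hl1
    exact exp_ne_zero hl1.symm
  have hε0 : ε ≠ 0 := by
    rintro rfl
    norm_num at hε
  have hel : ε * l ≠ 0 := mul_ne_zero hε0 hl0
  have hεv : ν ε = 1 := by
    have h1 : ν ε ^ 2 = 1 := by rw [← map_pow, hε, map_one]
    exact (pow_eq_one_iff_of_nonneg zero_le (by norm_num)).1 h1
  have hsq : ν ((3 * l) ^ 2) = exp (-6) := by
    rw [map_pow, h3l, ← exp_nsmul]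
    norm_num
  have h63 : (exp (-6) : ℤᵐ⁰) < exp (-3) := by
    rw [exp_lt_exp]
    norm_num
  right; right; right
  refine ⟨1 / (ε * l) ^ 3, ⟨1 / (ε * l) ^ 2, one_div_ne_zero (pow_ne_zero 2 hel), ?_⟩,
    ⟨1 / (ε * l), one_div_ne_zero hel, ?_⟩⟩
  · have e : ((1 / (ε * l) ^ 3) ^ 2 - k ^ 2) / (1 / (ε * l) ^ 2) ^ 3 - 1 =
        -(k ^ 2 * (3 * l) ^ 2) := by
      have e1 : (ε * l) ^ 6 = (3 * l) ^ 2 := by
        linear_combination (ε ^ 4 * l ^ 6 + ε ^ 2 * l ^ 6 + l ^ 6) * hε +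
          (l ^ 4 - 3 * l ^ 2) * hl2
      have e2 : ((1 / (ε * l) ^ 3) ^ 2 - k ^ 2) / (1 / (ε * l) ^ 2) ^ 3 - 1 =
          -(k ^ 2 * (ε * l) ^ 6) := by
        field_simp
        ring
      rw [e2, e1]
    rw [e, Valuation.map_neg, map_mul, map_pow, hk, one_pow, one_mul, hsq, h3l]
    exact h63
  · have e : (1 + 3 * l * t) * (1 / (ε * l) ^ 3 - k) / (1 / (ε * l)) ^ 3 - 1 =
        3 * l * (t + k * ε) + (3 * l) ^ 2 * (t * (k * ε)) := by
      have e1 : (ε * l) ^ 3 = -(3 * l * ε) := by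
        linear_combination (ε * l ^ 3) * hε + (l * ε) * hl2
      have e2 : (1 + 3 * l * t) * (1 / (ε * l) ^ 3 - k) / (1 / (ε * l)) ^ 3 - 1 =
          (1 + 3 * l * t) * (1 - k * (ε * l) ^ 3) - 1 := by
        field_simp
      rw [e2, e1]
      ring
    rw [e, h3l]
    refine ν.map_add_lt ?_ ?_
    · rw [map_mul, h3l]
      calc exp (-3) * ν (t + k * ε) < exp (-3) * 1 := mul_lt_mul_of_pos_left h exp_pos
        _ = exp (-3) := mul_one _
    · rw [map_mul, hsq, map_mul, map_mul, hk, hεv, mul_one, mul_one]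
      calc exp (-6) * ν t ≤ exp (-6) * 1 := by gcongr
        _ < exp (-3) := by rw [mul_one]; exact h63

/-- the point with `Y = z (1 - 3 c)` for `D = 2 k = 1 + 3 l c` modulo `9` -/
theorem pt_hard (hl2 : l ^ 2 = -3) (hl1 : ν l = exp (-1)) {z c : L} (hz : z ^ 2 + z + 1 = 0)
    (hlz : l = 1 + 2 * z) (hc : ν c ≤ 1) (hD : ν (2 * k - 1 - 3 * (l * c)) ≤ exp (-4)) :
    GLoc ν l k ((z * (1 - 3 * c)) ^ 2) := by
  have h3l := nu_three_l (ν := ν) hl2 hl1
  have h3 := nu_three (ν := ν) hl2 hl1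
  have hlt := nu_three_l_lt (ν := ν) hl2 hl1
  have hl0 : l ≠ 0 := by
    rintro rfl
    rw [map_zero] at hl1
    exact exp_ne_zero hl1.symm
  have hz3 : z ^ 3 = 1 := by linear_combination (z - 1) * hz
  have hzv : ν z = 1 := by
    have h1 : ν z ^ 3 = 1 := by rw [← map_pow, hz3, map_one]
    exact (pow_eq_one_iff_of_nonneg zero_le (by norm_num)).1 h1
  have h3c : ν (3 * c) < 1 := by
    rw [map_mul, h3]
    calc exp (-2) * ν c ≤ exp (-2) * 1 := by gcongr
      _ < 1 := by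
        rw [mul_one, ← exp_zero, exp_lt_exp]
        norm_num
  have h1c : ν (1 - 3 * c) = 1 := by
    rw [ν.map_sub_eq_of_lt_left (by rwa [map_one]), map_one]
  have h0 : z * (1 - 3 * c) ≠ 0 := by
    intro h
    have h1 := congrArg ν h
    rw [map_mul, hzv, h1c, map_zero, mul_one] at h1
    exact one_ne_zero h1
  obtain ⟨δ, hδ⟩ : ∃ δ, δ = 2 * k - 1 - 3 * (l * c) := ⟨_, rfl⟩
  rw [← hδ] at hD
  right; right; right
  refine ⟨z * (1 - 3 * c) + k, ?_, ?_⟩
  · refine Cu.neg (Cu.one ?_)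
    have e : -((z * (1 - 3 * c) + k) ^ 2 - k ^ 2) - 1 =
        -(9 * (c ^ 2 * z * (z - l)) + z * (1 - 3 * c) * δ) := by
      rw [hδ, hlz]
      linear_combination (-1 : L) * hz
    have h9 : ν (9 : L) = exp (-4) := by
      have e9 : (9 : L) = 3 * 3 := by norm_num
      rw [e9, map_mul, h3, ← exp_add]
      norm_num
    rw [e, Valuation.map_neg, h3l]
    have h43 : (exp (-4) : ℤᵐ⁰) < exp (-3) := by
      rw [exp_lt_exp]
      norm_num
    refine lt_of_le_of_lt (ν.map_add_le ?_ ?_) h43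
    · rw [map_mul, h9, map_mul, map_mul, map_pow, hzv, mul_one]
      have h4 : ν (z - l) ≤ 1 := by
        refine (ν.map_sub _ _).trans (max_le hzv.le ?_)
        rw [hl1, ← exp_zero, exp_le_exp]
        norm_num
      calc exp (-4) * (ν c ^ 2 * ν (z - l)) ≤ exp (-4) * (1 * 1) := by
            gcongr
            exact pow_le_one₀ zero_le hc
        _ = exp (-4) := by rw [mul_one, mul_one]
    · rw [map_mul, map_mul, hzv, h1c, one_mul, one_mul]
      exact hD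
  · have e : (z * (1 - 3 * c)) ^ 2 * (z * (1 - 3 * c) + k - k) = (z * (1 - 3 * c)) ^ 3 := by ring
    rw [e]
    exact Cu.cube hl0 h0

/-- the point with `Y = ff D`, `D = 2 k` divisible by `l` once or twice -/
theorem pt_ff (hl2 : l ^ 2 = -3) (hl1 : ν l = exp (-1))
    (hres : ∀ x : L, ν x ≤ 1 → ν x < 1 ∨ ν (x - 1) < 1 ∨ ν (x + 1) < 1)
    (hD : ν (2 * k) = exp (-1) ∨ ν (2 * k) = exp (-2)) : GLoc ν l k (ff (2 * k) ^ 2) := by
  have h3l := nu_three_l (ν := ν) hl2 hl1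
  have hl0 : l ≠ 0 := by
    rintro rfl
    rw [map_zero] at hl1
    exact exp_ne_zero hl1.symm
  have h1 := ff_val hl2 hl1 hres hD
  have h0 : ff (2 * k) ≠ 0 := by
    intro h0
    rw [h0, map_zero] at h1
    exact zero_ne_one h1
  right; right; right
  refine ⟨ff (2 * k) + k, Cu.one ?_, ?_⟩
  · have e : (ff (2 * k) + k) ^ 2 - k ^ 2 = ff (2 * k) * (ff (2 * k) + 2 * k) := by ring
    rw [e, h3l]
    refine lt_of_le_of_lt (ff_mul hl2 hl1 hres hD) ?_
    rw [exp_lt_exp]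
    norm_num
  · have e : ff (2 * k) ^ 2 * (ff (2 * k) + k - k) = ff (2 * k) ^ 3 := by ring
    rw [e]
    exact Cu.cube hl0 h0

end

/-! ### the classes modulo 9 -/

theorem clb_pow {x : 𝓞 K} (hx : In3 x) (n : ℕ) : clb (x ^ n) = n * clb x := by
  induction n with
  | zero => rw [pow_zero, Nat.cast_zero, zero_mul, clb_one]
  | succ n ih =>
    rw [pow_succ, clb_mul (cl3_pow hx n).1 hx, ih]
    push_cast
    ring

theorem nine_of {x : 𝓞 K} (hx : In3 x) (h : cl3 x = 0) (h' : clb x = 0) : (9 : 𝓞 K) ∣ x - 1 := by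
  have h9 := hard_mod hx h (c := 0) (by rw [h', Int.cast_zero])
  rwa [Int.cast_zero, mul_zero, mul_zero, sub_zero] at h9

/-- the valuation above 3 -/
abbrev v3 : Valuation K ℤᵐ⁰ := (pw s3 prime_s3).valuation K

theorem cu_nine {x : 𝓞 K} (h : (9 : 𝓞 K) ∣ x - 1) : Cu v3 lK (x : K) := by
  refine Cu.one ?_
  have h4 := val_le_sq prime_s3 (mem_pw s3 prime_s3) (x := x - 1) 4
  have e4 : s3 ^ 4 = 9 := by linear_combination (s3 ^ 2 - 3) * s3_sq
  rw [e4] at h4
  have h5 := h4.2 h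
  have e : ((x - 1 : 𝓞 K) : K) = (x : K) - 1 := by
    push_cast
    rfl
  rw [e] at h5
  rw [nu_three_l (ν := v3) lK_sq (val_l (mem_pw s3 prime_s3))]
  refine lt_of_le_of_lt h5 ?_
  rw [exp_lt_exp]
  norm_num

theorem wO_pow_three {n : ℕ} (h : (n : ZMod 3) = 0) : wO ^ n = 1 := by
  obtain ⟨m, rfl⟩ := (ZMod.natCast_eq_zero_iff _ 3).1 h
  rw [pow_mul, wO_cube, one_pow]

/-- `D` not divisible by `√-3`: the units `1` modulo `3 √-3` -/
theorem gp_unit {k : K} (hk : v3 (2 * k) = 1) {x : 𝓞 K} (hx : 3 * s3 ∣ x - 1) :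
    GP v3 lK k (x : K) := by
  have hmem := mem_pw s3 prime_s3
  have hl1 := val_l hmem
  have h3 := nu_three (ν := v3) lK_sq hl1
  have h2 : v3 2 = 1 := by
    have e : (2 : K) = -1 + 3 := by norm_num
    rw [e, v3.map_add_eq_of_lt_left (by
      rw [Valuation.map_neg, map_one, h3, ← exp_zero, exp_lt_exp]
      norm_num), Valuation.map_neg, map_one]
  have hk1 : v3 k = 1 := by rwa [map_mul, h2, one_mul] at hk
  have hk0 : k ≠ 0 := by
    rintro rfl
    rw [map_zero] at hk1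
    exact zero_ne_one hk1
  obtain ⟨t, ht⟩ := hx
  have htv : v3 (t : K) ≤ 1 := val_le _ t
  have e : (x : K) = 1 + 3 * lK * (t : K) := by
    have h4 : x = 1 + 3 * s3 * t := by linear_combination ht
    rw [h4]
    push_cast
    rfl
  rw [e]
  obtain ⟨r, hr⟩ : ∃ r : K, r = -(t : K) / k := ⟨_, rfl⟩
  have htr : (t : K) = -(k * r) := by
    rw [hr]
    field_simp
  have hrv : v3 r ≤ 1 := by
    rw [hr, map_div₀, Valuation.map_neg, hk1, div_one]
    exact htv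
  rcases res_three hmem r hrv with h | h | h
  · refine .loc (Or.inl (Cu.one ?_))
    have e1 : 1 + 3 * lK * (t : K) - 1 = 3 * lK * (t : K) := by ring
    have h5 : v3 (3 * lK) = exp (-3) := nu_three_l lK_sq hl1
    rw [e1, map_mul, h5, htr, Valuation.map_neg, map_mul, hk1, one_mul]
    calc exp (-3) * v3 r < exp (-3) * 1 := mul_lt_mul_of_pos_left h exp_pos
      _ = exp (-3) := mul_one _
  · refine .loc (pt_unit lK_sq hl1 hk1 (ε := 1) (by ring) htv ?_)
    have e1 : (t : K) + k * 1 = -(k * (r - 1)) := by rw [htr]; ring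
    rw [e1, Valuation.map_neg, map_mul, hk1, one_mul]
    exact h
  · refine .loc (pt_unit lK_sq hl1 hk1 (ε := -1) (by ring) htv ?_)
    have e1 : (t : K) + k * -1 = -(k * (r + 1)) := by rw [htr]; ring
    rw [e1, Valuation.map_neg, map_mul, hk1, one_mul]
    exact h

theorem v3_mon (S : Finset P3) (i : ℕ) (E : P3 → ℕ) : v3 ((mon S i E : 𝓞 K) : K) = 1 :=
  val_one fun h => s3_not_dvd_mon S i E ((mem_s3 (mem_pw s3 prime_s3) _).1 h)

/-- `j = 0`, not hard -/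
theorem gp_three0 {S : Finset P3} {i : ℕ} {E V : P3 → ℕ} {u : ℕ}
    {k : K} (hk : 2 * k = ((mon S i E : 𝓞 K) : K)) (hu : (u : ZMod 3) = 0)
    (hA : ∑ q ∈ S, (V q : ZMod 3) * d3.a q = 0) : GP v3 lK k ((mon S u V : 𝓞 K) : K) := by
  obtain ⟨h1, h2⟩ := prod_in3 S V
  refine gp_unit (by rw [hk, v3_mon]) ?_
  have e : mon S u V = ∏ q ∈ S, q.1 ^ V q := by
    unfold mon
    rw [wO_pow_three hu, one_mul]
  rw [e]
  exact cl3_of_zero h1 (h2.trans hA)

/-- `j = 0`, hard -/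
theorem gp_threeH {S : Finset P3} {E V : P3 → ℕ} {u s : ℕ}
    (hE : ∑ q ∈ S, (E q : ZMod 3) * d3.a q = 0)
    {k : K} (hk : 2 * k = ((mon S 0 E : 𝓞 K) : K)) (hu : (u : ZMod 3) + 2 * s = 0)
    (hA : ∑ q ∈ S, (V q : ZMod 3) * d3.a q + s * (-∑ q ∈ S, (E q : ZMod 3) * bq q) = 0) :
    GP v3 lK k ((mon S u V : 𝓞 K) : K) := by
  obtain ⟨hP, hPa⟩ := prod_in3 S E
  have hPb := clb_prod S E
  have hmP : mon S 0 E = ∏ q ∈ S, q.1 ^ E q := by
    unfold mon
    rw [pow_zero, one_mul]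
  rw [← hmP] at hP hPa hPb
  obtain ⟨n, hn⟩ : ∃ n : ℤ, (n : ZMod 3) = clb (mon S 0 E) := ⟨((clb (mon S 0 E)).val : ℤ), by
    rw [Int.cast_natCast, ZMod.natCast_zmod_val]⟩
  have h9 := hard_mod hP (by rw [hPa]; exact hE) hn
  have hmem := mem_pw s3 prime_s3
  have hν : v3 (2 * k - 1 - 3 * (lK * (n : K))) ≤ exp (-4) := by
    have e : 2 * k - 1 - 3 * (lK * (n : K)) =
        ((mon S 0 E - 1 - 3 * (s3 * (n : 𝓞 K)) : 𝓞 K) : K) := by
      rw [hk]
      push_cast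
      rfl
    have h4 := val_le_sq prime_s3 hmem (x := mon S 0 E - 1 - 3 * (s3 * (n : 𝓞 K))) 4
    have e4 : s3 ^ 4 = 9 := by linear_combination (s3 ^ 2 - 3) * s3_sq
    rw [e4] at h4
    rw [e]
    exact h4.2 h9
  have hnv : v3 (n : K) ≤ 1 := by
    have := val_le (pw s3 prime_s3) (n : 𝓞 K)
    have e : (((n : 𝓞 K)) : K) = (n : K) := map_intCast (algebraMap (𝓞 K) K) n
    rwa [e] at this
  -- the class of the point
  have hp := pt_hard (k := k) lK_sq (val_l hmem) om_quad lK_eq hnv hν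
  obtain ⟨G, hG⟩ : ∃ G : 𝓞 K, G = 1 + 3 * ((-n : ℤ) + (0 : ℤ) * wO) := ⟨_, rfl⟩
  have hG3 : In3 G := ⟨(-n : ℤ) + (0 : ℤ) * wO, by rw [hG]; ring⟩
  have hGc : cl3 G = n := by
    rw [hG, cl3_of]
    push_cast
    ring
  have hGK : ((wO * G : 𝓞 K) : K) = om * (1 - 3 * (n : K)) := by
    have e1 : algebraMap (𝓞 K) K wO = om := rfl
    show algebraMap (𝓞 K) K (wO * G) = _
    rw [hG, map_mul, e1, map_add, map_one, map_mul, map_ofNat, map_add, map_mul, map_intCast,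
      map_intCast, e1]
    push_cast
    ring
  rw [← hGK] at hp
  have hne : ((wO * G : 𝓞 K) : K) ≠ 0 := by
    intro h0
    have h1 := (GP.loc hp)
    rw [hGK] at h0
    have h2 : lK ≠ 0 := lK_ne
    rcases mul_eq_zero.1 h0 with h3 | h3
    · have := om_quad
      rw [h3] at this
      norm_num at this
    · have h5 : (3 * (n : K)) = 1 := by linear_combination -h3
      have h6 : ((3 * n : ℤ) : K) = ((1 : ℤ) : K) := by
        push_cast
        exact h5
      have h7 : (3 * n : ℤ) = 1 := Int.cast_injective h6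
      omega
  have hgp : GP v3 lK k ((wO * G : 𝓞 K) : K) := GP.of_sq lK_ne hne (.loc hp)
  -- `u + 2 s = 0`: use the power `2 s`
  refine GP.of_mul_pow lK_ne hne (2 * s) ?_ hgp
  have e : ((mon S u V : 𝓞 K) : K) * ((wO * G : 𝓞 K) : K) ^ (2 * s) =
      (((∏ q ∈ S, q.1 ^ V q) * G ^ (2 * s) : 𝓞 K) : K) := by
    have e1 : mon S u V * (wO * G) ^ (2 * s) = (∏ q ∈ S, q.1 ^ V q) * G ^ (2 * s) := by
      have e2 : wO ^ (u + 2 * s) = 1 := wO_pow_three (by push_cast; exact hu)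
      unfold mon
      rw [mul_pow]
      linear_combination ((∏ q ∈ S, q.1 ^ V q) * G ^ (2 * s)) * e2
    rw [← e1]
    push_cast
    rfl
  rw [e]
  obtain ⟨h1, h2⟩ := prod_in3 S V
  obtain ⟨h3, h4⟩ := cl3_pow hG3 (2 * s)
  refine gp_unit (by rw [hk, v3_mon]) (cl3_of_zero (h1.mul h3) ?_)
  rw [cl3_mul h1 h3, h2, h4, hGc, hn, hPb]
  push_cast
  have h30 : (3 : ZMod 3) = 0 := rfl
  linear_combination hA + (s : ZMod 3) * (∑ q ∈ S, (E q : ZMod 3) * bq q) * h30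

end

end Pool.Agent.Lib.MP_1a91b9_ntS3.C
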