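import Pool.Agent.Lib.MP_1a91b9_ntS3.C.At3

/-!
# MP_1a91b9_nt (cubic twists), converse of the descent: the local images at the place above 3, `√-3 ∣ D`
-/

set_option autoImplicit false
set_option linter.unusedSectionVars false

namespace Pool.Agent.Lib.MP_1a91b9_ntS3.C

open NumberField IsDedekindDomain WithZero Finset Pool.Agent.Lib.MP_1a91b9_ntT
open Pool.Agent.Lib.MP_1a91b9_ntH (wO s3 wO_quad coe_wO prime_s3 s3_sq om_quad cp eq_cp cp_coords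
  coords_inj)
open Pool.Agent.Lib.MP_1a91b9_ntH.C (ideal_eq val_one val_lt val_le val_prime val_le_sq s3_prime
  coe_s3)
open Pool.Agent.Lib.MP_1a91b9_ntK Pool.Agent.Lib.MP_1a91b9_ntK.C

noncomputable section

theorem cls_of {x : 𝓞 K} (m n : ℤ) (h : x = 1 + 3 * ((m : 𝓞 K) + n * wO)) :
    In3 x ∧ cl3 x = -((m : ZMod 3) + n) ∧ clb x = -(n : ZMod 3) :=
  ⟨⟨(m : 𝓞 K) + n * wO, by rw [h]; ring⟩, by rw [h, cl3_of], by rw [h, clb_of]⟩

theorem wO_pow_mod (i : ℕ) : wO ^ i = wO ^ (i % 3) := by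
  conv_lhs => rw [← Nat.div_add_mod i 3, pow_add, pow_mul, wO_cube, one_pow, one_mul]

theorem cast_mod3 (i : ℕ) : (i : ZMod 3) = ((i % 3 : ℕ) : ZMod 3) := by
  rw [ZMod.natCast_mod]

theorem mon_form (S : Finset P3) (i : ℕ) (E : P3 → ℕ) : ∃ m n : ℤ,
    mon S i E = wO ^ (i % 3) * (1 + 3 * ((m : 𝓞 K) + n * wO)) ∧
      ∑ q ∈ S, (E q : ZMod 3) * d3.a q = -((m : ZMod 3) + n) := by
  obtain ⟨h1, h2⟩ := prod_in3 S E
  obtain ⟨m, n, h⟩ := in3_form h1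
  refine ⟨m, n, ?_, ?_⟩
  · rw [← wO_pow_mod, ← h]
    rfl
  · rw [← h2, h, cl3_of]

theorem zc : ∀ x : ZMod 3, (3 : ZMod 3) * x = 0 := by decide

/-- the class of `ff D`, `√-3 ^ 2 ∣ D` -/
theorem ff2_cls (S : Finset P3) (i : ℕ) (E : P3 → ℕ) :
    In3 (ff (s3 ^ 2 * mon S i E)) ∧ cl3 (ff (s3 ^ 2 * mon S i E)) = 1 ∧
      clb (ff (s3 ^ 2 * mon S i E)) = i := by
  obtain ⟨m, n, h, -⟩ := mon_form S i E
  have hw := wO_quad
  have hlt : i % 3 < 3 := Nat.mod_lt _ (by norm_num)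
  have h9 : (9 : ZMod 3) = 0 := by decide
  rw [cast_mod3 i]
  interval_cases hi : i % 3
  · obtain ⟨h1, h2, h3⟩ := cls_of (x := ff (s3 ^ 2 * mon S i E))
      (-7 + 27 * n ^ 2 + -30 * m + -27 * m ^ 2) (-30 * n + 27 * n ^ 2 + -54 * m * n) (by
        rw [h, ff]
        unfold s3
        push_cast
        linear_combination ((24 + -81*(n : 𝓞 K)^2 + 96*m + 72*m^2) +
          (-16 + 96*n + -96*m + 144*m*n + -144*m^2)*wO +
          (-16 + -96*n + 72*n^2 + -96*m + -288*m*n + -144*m^2)*wO^2 +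
          (-96*n + -144*n^2 + -288*m*n)*wO^3 + (-144*n^2)*wO^4) * hw)
    refine ⟨h1, ?_, ?_⟩
    · rw [h2]
      push_cast
      linear_combination zc (2 + -9*(n : ZMod 3)^2 + 10*m + 9*m^2 + 10*n - 9*n^2 + 18*m*n)
    · rw [h3]
      push_cast
      linear_combination zc (10*(n : ZMod 3) - 9*n^2 + 18*m*n)
  · obtain ⟨h1, h2, h3⟩ := cls_of (x := ff (s3 ^ 2 * mon S i E))
      (3 + -6 * n + 18 * m + -54 * m * n + 27 * m ^ 2)
      (-1 + 12 * n + -27 * n ^ 2 + 6 * m + 27 * m ^ 2) (by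
        rw [h, ff]
        unfold s3
        push_cast
        linear_combination ((-9 + 18*(n : 𝓞 K) + -54*m + 162*m*n + -81*m^2) +
          (16 + -54*n + 81*n^2 + 48*m + -162*m*n)*wO +
          (8 + 48*n + -81*n^2 + 48*m + 72*m^2)*wO^2 +
          (-16 + 48*n + -96*m + 144*m*n + -144*m^2)*wO^3 +
          (-16 + -96*n + 72*n^2 + -96*m + -288*m*n + -144*m^2)*wO^4 +
          (-96*n + -144*n^2 + -288*m*n)*wO^5 + (-144*n^2)*wO^6) * hw)
    refine ⟨h1, ?_, ?_⟩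
    · rw [h2]
      push_cast
      linear_combination zc (-1 - (-2*(n : ZMod 3) + 6*m - 18*m*n + 9*m^2 + 4*n - 9*n^2 + 2*m +
        9*m^2))
    · rw [h3]
      push_cast
      linear_combination zc (-(4*(n : ZMod 3) - 9*n^2 + 2*m + 9*m^2))
  · obtain ⟨h1, h2, h3⟩ := cls_of (x := ff (s3 ^ 2 * mon S i E))
      (4 + 6 * n + -27 * n ^ 2 + 12 * m + 54 * m * n)
      (1 + 18 * n + -6 * m + 54 * m * n + -27 * m ^ 2) (by
        rw [h, ff]
        unfold s3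
        push_cast
        linear_combination ((-12 + -18*(n : 𝓞 K) + 81*n^2 + -36*m + -162*m*n) +
          (9 + -36*n + -81*n^2 + 54*m + 81*m^2)*wO +
          (7 + 54*n + -6*m + 162*m*n + -81*m^2)*wO^2 + (-6*n + 81*n^2 + -162*m*n)*wO^3 +
          (8 + -81*n^2 + 48*m + 72*m^2)*wO^4 +
          (-16 + 48*n + -96*m + 144*m*n + -144*m^2)*wO^5 +
          (-16 + -96*n + 72*n^2 + -96*m + -288*m*n + -144*m^2)*wO^6 +
          (-96*n + -144*n^2 + -288*m*n)*wO^7 + (-144*n^2)*wO^8) * hw)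
    refine ⟨h1, ?_, ?_⟩
    · rw [h2]
      push_cast
      linear_combination zc (-2 - (2*(n : ZMod 3) - 9*n^2 + 4*m + 18*m*n + 6*n - 2*m + 18*m*n -
        9*m^2))
    · rw [h3]
      push_cast
      linear_combination zc (-1 - (6*(n : ZMod 3) - 2*m + 18*m*n - 9*m^2))

/-- the class of `w ff D`, `√-3 ∣ D` exactly -/
theorem ff1_cls (S : Finset P3) (i : ℕ) (E : P3 → ℕ) :
    In3 (wO * ff (s3 ^ 1 * mon S i E)) ∧ cl3 (wO * ff (s3 ^ 1 * mon S i E)) = -(i : ZMod 3) ∧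
      clb (wO * ff (s3 ^ 1 * mon S i E)) =
        (i : ZMod 3) ^ 2 - ∑ q ∈ S, (E q : ZMod 3) * d3.a q := by
  obtain ⟨m, n, h, hA⟩ := mon_form S i E
  have hw := wO_quad
  have hlt : i % 3 < 3 := Nat.mod_lt _ (by norm_num)
  rw [cast_mod3 i, hA]
  interval_cases hi : i % 3
  · obtain ⟨h1, h2, h3⟩ := cls_of (x := wO * ff (s3 ^ 1 * mon S i E))
      (-3 + -2 * n + 9 * n ^ 2 + -8 * m + -18 * m * n) (-10 * n + 2 * m + -18 * m * n + 9 * m ^ 2) (by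
        rw [h, ff]
        unfold s3
        push_cast
        linear_combination ((8 + 6*(n : 𝓞 K) + -27*n^2 + 24*m + 54*m*n) +
          (-4 + 24*n + 27*n^2 + -24*m + -36*m^2)*wO + (-24*n + -72*m*n)*wO^2 +
          (-36*n^2)*wO^3) * hw)
    refine ⟨h1, ?_, ?_⟩
    · rw [h2]
      push_cast
      linear_combination zc (1 - (-4*(n : ZMod 3) + 3*n^2 - 2*m - 12*m*n + 3*m^2))
    · rw [h3]
      push_cast
      linear_combination zc (-(-3*(n : ZMod 3) + m - 6*m*n + 3*m^2))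
  · obtain ⟨h1, h2, h3⟩ := cls_of (x := wO * ff (s3 ^ 1 * mon S i E))
      (2 + 4 * n + -9 * n ^ 2 + 10 * m + 9 * m ^ 2)
      (-1 + 14 * n + -9 * n ^ 2 + -4 * m + 18 * m * n) (by
        rw [h, ff]
        unfold s3
        push_cast
        linear_combination ((-7 + -12*(n : 𝓞 K) + 27*n^2 + -30*m + -27*m^2) +
          (11 + -30*n + 42*m + -54*m*n + 27*m^2)*wO + (42*n + -27*n^2 + 54*m*n)*wO^2 +
          (-4 + 27*n^2 + -24*m + -36*m^2)*wO^3 + (-24*n + -72*m*n)*wO^4 +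
          (-36*n^2)*wO^5) * hw)
    refine ⟨h1, ?_, ?_⟩
    · rw [h2]
      push_cast
      linear_combination zc (-(6*(n : ZMod 3) - 6*n^2 + 2*m + 3*m^2 + 6*m*n))
    · rw [h3]
      push_cast
      linear_combination zc (-(5*(n : ZMod 3) - 3*n^2 - m + 6*m*n))
  · obtain ⟨h1, h2, h3⟩ := cls_of (x := wO * ff (s3 ^ 1 * mon S i E))
      (-2 * n + -2 * m + 18 * m * n + -9 * m ^ 2)
      (2 + -4 * n + 9 * n ^ 2 + 2 * m + -9 * m ^ 2) (by
        rw [h, ff]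
        unfold s3
        push_cast
        linear_combination ((-1 + 6*(n : 𝓞 K) + 6*m + -54*m*n + 27*m^2) +
          (-4 + 6*n + -27*n^2 + -12*m + 54*m*n)*wO +
          (5 + -12*n + 27*n^2 + 6*m + -27*m^2)*wO^2 +
          (3 + 6*n + 18*m + -54*m*n + 27*m^2)*wO^3 + (18*n + -27*n^2 + 54*m*n)*wO^4 +
          (-4 + 27*n^2 + -24*m + -36*m^2)*wO^5 + (-24*n + -72*m*n)*wO^6 +
          (-36*n^2)*wO^7) * hw)
    refine ⟨h1, ?_, ?_⟩
    · rw [h2]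
      push_cast
      linear_combination zc (-(-2*(n : ZMod 3) + 3*n^2 + 6*m*n - 6*m^2))
    · rw [h3]
      push_cast
      linear_combination zc (-2 - (-(n : ZMod 3) + 3*n^2 + m - 3*m^2))

theorem v3_mon2 (S : Finset P3) (i : ℕ) (E : P3 → ℕ) {j : ℕ} (hj : j = 1 ∨ j = 2) {k : K}
    (hk : 2 * k = ((s3 ^ j * mon S i E : 𝓞 K) : K)) :
    v3 (2 * k) = exp (-1) ∨ v3 (2 * k) = exp (-2) := by
  rw [hk]
  have h := val_pow_mul prime_s3 (mem_pw s3 prime_s3) (s3_not_dvd_mon S i E) j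
  rcases hj with rfl | rfl
  · left
    rw [v3, h]
    rfl
  · right
    rw [v3, h]
    rfl

/-- the class of the point with `Y = ff D` -/
theorem gp_ff (S : Finset P3) (i : ℕ) (E : P3 → ℕ) {j : ℕ} (hj : j = 1 ∨ j = 2) {k : K}
    (hk : 2 * k = ((s3 ^ j * mon S i E : 𝓞 K) : K)) :
    ((ff (s3 ^ j * mon S i E) : 𝓞 K) : K) ≠ 0 ∧
      GP v3 lK k ((ff (s3 ^ j * mon S i E) : 𝓞 K) : K) := by
  have hmem := mem_pw s3 prime_s3
  have hν := v3_mon2 S i E hj hk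
  have h1 := pt_ff (k := k) lK_sq (val_l hmem) (res_three hmem) hν
  have e : ff (2 * k) = ((ff (s3 ^ j * mon S i E) : 𝓞 K) : K) := by
    rw [hk, ff_coe]
  have h2 := ff_val (ν := v3) lK_sq (val_l hmem) (res_three hmem) hν
  rw [e] at h1 h2
  have h0 : ((ff (s3 ^ j * mon S i E) : 𝓞 K) : K) ≠ 0 := by
    intro h0
    rw [h0, map_zero] at h2
    exact zero_ne_one h2
  exact ⟨h0, GP.of_sq lK_ne h0 (.loc h1)⟩

/-- `j = 2` -/
theorem gp_three2 {S : Finset P3} {i : ℕ} {E V : P3 → ℕ} {u s : ℕ}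
    {k : K} (hk : 2 * k = ((s3 ^ 2 * mon S i E : 𝓞 K) : K)) (hu : (u : ZMod 3) = 0)
    (hA : ∑ q ∈ S, (V q : ZMod 3) * d3.a q + s = 0)
    (hr : (u : ZMod 3) * ∑ q ∈ S, (E q : ZMod 3) * d3.a q =
      i * ∑ q ∈ S, (V q : ZMod 3) * d3.a q + 2 * ∑ q ∈ S, (V q : ZMod 3) * bq q) :
    GP v3 lK k ((mon S u V : 𝓞 K) : K) := by
  obtain ⟨h0, hgp⟩ := gp_ff S i E (Or.inr rfl) hk
  refine GP.of_mul_pow lK_ne h0 s ?_ hgp
  obtain ⟨f1, f2, f3⟩ := ff2_cls S i E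
  obtain ⟨g1, g2⟩ := prod_in3 S V
  have g3 := clb_prod S V
  obtain ⟨f4, f5⟩ := cl3_pow f1 s
  have f6 := clb_pow f1 s
  have e : ((mon S u V : 𝓞 K) : K) * ((ff (s3 ^ 2 * mon S i E) : 𝓞 K) : K) ^ s =
      (((∏ q ∈ S, q.1 ^ V q) * ff (s3 ^ 2 * mon S i E) ^ s : 𝓞 K) : K) := by
    have e1 : mon S u V * ff (s3 ^ 2 * mon S i E) ^ s =
        (∏ q ∈ S, q.1 ^ V q) * ff (s3 ^ 2 * mon S i E) ^ s := by
      have e2 : wO ^ u = 1 := wO_pow_three hu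
      have e3 : mon S u V = wO ^ u * ∏ q ∈ S, q.1 ^ V q := rfl
      rw [e3, e2, one_mul]
    rw [← e1]
    push_cast
    rfl
  rw [e]
  refine .loc (Or.inl (cu_nine (nine_of (g1.mul f4) ?_ ?_)))
  · rw [cl3_mul g1 f4, g2, f5, f2]
    linear_combination hA
  · rw [clb_mul g1 f4, g3, f6, f3]
    rw [hu, zero_mul] at hr
    linear_combination hr + (i : ZMod 3) * hA + zc (∑ q ∈ S, (V q : ZMod 3) * bq q)

/-- `j = 1` -/
theorem gp_three1 {S : Finset P3} {i : ℕ} {E V : P3 → ℕ} {u s : ℕ}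
    {k : K} (hk : 2 * k = ((s3 ^ 1 * mon S i E : 𝓞 K) : K)) (hu : (u : ZMod 3) + 2 * s = 0)
    (hA : ∑ q ∈ S, (V q : ZMod 3) * d3.a q + s * (-(i : ZMod 3)) = 0)
    (hr : (u : ZMod 3) * ∑ q ∈ S, (E q : ZMod 3) * d3.a q =
      i * ∑ q ∈ S, (V q : ZMod 3) * d3.a q + ∑ q ∈ S, (V q : ZMod 3) * bq q) :
    GP v3 lK k ((mon S u V : 𝓞 K) : K) := by
  obtain ⟨h0, hgp⟩ := gp_ff S i E (Or.inl rfl) hk
  refine GP.of_mul_pow lK_ne h0 s ?_ hgp
  obtain ⟨f1, f2, f3⟩ := ff1_cls S i E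
  obtain ⟨g1, g2⟩ := prod_in3 S V
  have g3 := clb_prod S V
  obtain ⟨f4, f5⟩ := cl3_pow f1 s
  have f6 := clb_pow f1 s
  have e : ((mon S u V : 𝓞 K) : K) * ((ff (s3 ^ 1 * mon S i E) : 𝓞 K) : K) ^ s =
      (((∏ q ∈ S, q.1 ^ V q) * (wO * ff (s3 ^ 1 * mon S i E)) ^ s : 𝓞 K) : K) := by
    have e1 : mon S u V * ff (s3 ^ 1 * mon S i E) ^ s =
        (∏ q ∈ S, q.1 ^ V q) * (wO * ff (s3 ^ 1 * mon S i E)) ^ s := by
      have e2 : wO ^ (u + 2 * s) = 1 := wO_pow_three (by push_cast; exact hu)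
      have e3 : mon S u V = wO ^ u * ∏ q ∈ S, q.1 ^ V q := rfl
      have e4 : (wO ^ 3) ^ s = 1 := by rw [wO_cube, one_pow]
      have e5 : wO ^ u = wO ^ s := by
        have e6 : wO ^ u * (wO ^ 3) ^ s = wO ^ (u + 2 * s) * wO ^ s := by
          rw [← pow_mul, ← pow_add, ← pow_add]
          congr 1
          ring
        rw [e4, mul_one, e2, one_mul] at e6
        exact e6
      rw [e3, mul_pow, e5]
      ring
    rw [← e1]
    push_cast
    rfl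
  rw [e]
  refine .loc (Or.inl (cu_nine (nine_of (g1.mul f4) ?_ ?_)))
  · rw [cl3_mul g1 f4, g2, f5, f2]
    exact hA
  · rw [clb_mul g1 f4, g3, f6, f3]
    have hus : (u : ZMod 3) = s := by linear_combination hu - zc (s : ZMod 3)
    rw [hus] at hr
    linear_combination -hr - (i : ZMod 3) * hA

end

end Pool.Agent.Lib.MP_1a91b9_ntS3.C
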