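import Pool.Agent.Lib.MP_1a91b9_ntK.C.Kd

/-!
# MP_1a91b9_nt (cubic twists), converse of the descent: the cocycle with values in the kernel of `1 - ω` of
a cube root
-/

set_option autoImplicit false

namespace Pool.Agent.Lib.MP_1a91b9_ntS3.C

open WeierstrassCurve NumberField IsDedekindDomain
open Pool.Agent.Lib.MP_1a91b9_ntK.C
open Pool.Agent.Lib.MP_1a91b9_ntT.S9 (Pts Gal coc cob trivOver shaCoc Sha up)
open scoped Classical

open scoped Pointwise in
private theorem cocy3_lc {k : Type*} [Field k] [CharZero k] {X : Type*} (x : AlgebraicClosure k)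
    (F : AlgebraicClosure k → X) : IsLocallyConstant fun σ : Gal k => F (σ x) := by
  rw [IsLocallyConstant.iff_exists_open]
  intro σ
  have hx : IsIntegral k x := (Algebra.IsAlgebraic.isAlgebraic x).isIntegral
  let M : IntermediateField k (AlgebraicClosure k) := IntermediateField.adjoin k {x}
  have hM : FiniteDimensional k M :=
    IntermediateField.finiteDimensional_adjoin (by
      rintro z hz
      rw [Set.mem_singleton_iff] at hz
      exact hz ▸ hx)
  have hxM : x ∈ M := IntermediateField.subset_adjoin k _ (by simp)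
  refine ⟨σ • (M.fixingSubgroup : Set (Gal k)),
    (IntermediateField.fixingSubgroup_isOpen M).smul σ,
    ⟨1, one_mem _, by simp⟩, ?_⟩
  rintro _ ⟨τ, hτ, rfl⟩
  have hτ' : ∀ z ∈ M, τ z = z := (IntermediateField.mem_fixingSubgroup_iff M τ).1 hτ
  have e1 : (σ • τ : Gal k) x = σ x := congrArg σ (hτ' x hxM)
  show F ((σ • τ : Gal k) x) = F (σ x)
  rw [e1]

variable {k : Type*} [Field k] [CharZero k] {z d : k} (hd : d ≠ 0) (hz : z ^ 2 + z + 1 = 0)

/-- the point with `σ b = ch (c σ)² b` -/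
private noncomputable def pt3 (b y : AlgebraicClosure k) : Pts (ck d) (AlgebraicClosure k) :=
  if y = b then 0 else if y = algebraMap k (AlgebraicClosure k) z * b then
    tq (isK_bc hd hz (AlgebraicClosure k)) else -tq (isK_bc hd hz (AlgebraicClosure k))

private theorem pt3_mu (b y : AlgebraicClosure k) :
    mu (isK_bc hd hz (AlgebraicClosure k)) (pt3 hd hz b y) = 0 := by
  unfold pt3
  split_ifs
  · exact map_zero _
  · exact mu_tq _
  · rw [map_neg, mu_tq, neg_zero]

private theorem pt3_ch (b y : AlgebraicClosure k) (h : y ^ 3 = b ^ 3) :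
    y = ch (isK_bc hd hz (AlgebraicClosure k)) (pt3 hd hz b y) ^ 2 * b := by
  have hK := isK_bc hd hz (AlgebraicClosure k)
  have hzA := hK.hz
  have hz3 := hK.z3
  set ζ := algebraMap k (AlgebraicClosure k) z with hζ
  unfold pt3
  split_ifs with h1 h2
  · rw [ch_zero, one_pow, one_mul, h1]
  · rw [ch_tq, h2]
    linear_combination (-(ζ * b)) * hz3
  · rw [ch_neg_tq]
    have hfac : (y - b) * ((y - ζ * b) * (y - ζ ^ 2 * b)) = 0 := by
      linear_combination h + (y - b) * ((ζ - 1) * b ^ 2 - y * b) * hzA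
    rcases mul_eq_zero.1 hfac with h3 | h3
    · exact absurd (sub_eq_zero.1 h3) h1
    · rcases mul_eq_zero.1 h3 with h3 | h3
      · exact absurd (sub_eq_zero.1 h3) h2
      · exact sub_eq_zero.1 h3

omit [CharZero k] in
/-- an element of exact order dividing three is determined by its square -/
theorem eq_of_sq3 {F : Type*} [Field F] {x y : F} (hx : x ^ 3 = 1) (hy : y ^ 3 = 1)
    (h : x ^ 2 = y ^ 2) : x = y := by
  have hy0 : y ≠ 0 := by
    rintro rfl
    norm_num at hy
  refine mul_right_cancel₀ (pow_ne_zero 2 hy0) ?_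
  linear_combination hx - hy - x * h

/-- the cocycle attached to a cube root `b` of `a` -/
theorem exists_cocycle3 (a : k) (b : AlgebraicClosure k) (hb0 : b ≠ 0)
    (hb : algebraMap k (AlgebraicClosure k) a = b ^ 3) :
    ∃ c : Gal k → Pts (ck d) (AlgebraicClosure k), c ∈ coc (ck d) ∧
      (∀ σ, mu (isK_bc hd hz (AlgebraicClosure k)) (c σ) = 0) ∧ KD hd hz c a b := by
  have hσ3 : ∀ σ : Gal k, σ b ^ 3 = b ^ 3 := fun σ => by
    rw [← map_pow, ← hb]
    exact σ.commutes a
  have hk : KD hd hz (fun σ => pt3 hd hz b (σ b)) a b :=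
    ⟨hb0, hb, fun σ => pt3_ch hd hz b (σ b) (hσ3 σ)⟩
  refine ⟨fun σ => pt3 hd hz b (σ b), ⟨cocy3_lc b fun y => pt3 hd hz b y, fun σ τ => ?_⟩,
    fun σ => pt3_mu hd hz b (σ b), hk⟩
  have h1 : Affine.Point.map (σ : AlgebraicClosure k →ₐ[k] AlgebraicClosure k)
      (pt3 hd hz b (τ b)) = pt3 hd hz b (τ b) := act_ker hd hz σ _ (pt3_mu hd hz b (τ b))
  show pt3 hd hz b ((σ * τ) b) = pt3 hd hz b (σ b) +
    Affine.Point.map (σ : AlgebraicClosure k →ₐ[k] AlgebraicClosure k) (pt3 hd hz b (τ b))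
  rw [h1]
  refine ch_inj (isK_bc hd hz (AlgebraicClosure k)) _ _ (pt3_mu hd hz b _)
    (by rw [map_add, pt3_mu, pt3_mu, add_zero]) ?_
  rw [ch_add _ _ _ (pt3_mu hd hz b _) (pt3_mu hd hz b _)]
  refine eq_of_sq3 (ch_cube _ _) (by rw [mul_pow, ch_cube, ch_cube, one_mul]) ?_
  refine mul_right_cancel₀ hb0 ?_
  have e1 : (σ * τ) b = σ (τ b) := rfl
  have e2 := hk.act (σ * τ)
  have e3 := hk.act τ
  have e4 := hk.act σ
  have e5 : σ (ch (isK_bc hd hz (AlgebraicClosure k)) (pt3 hd hz b (τ b))) =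
      ch (isK_bc hd hz (AlgebraicClosure k)) (pt3 hd hz b (τ b)) := by
    rw [ch_chk hd hz]
    exact σ.commutes _
  revert e2 e3 e4 e5
  generalize ch (isK_bc hd hz (AlgebraicClosure k)) (pt3 hd hz b (τ b)) = Y
  generalize ch (isK_bc hd hz (AlgebraicClosure k)) (pt3 hd hz b (σ b)) = X
  generalize ch (isK_bc hd hz (AlgebraicClosure k)) (pt3 hd hz b ((σ * τ) b)) = Z
  intro e2 e3 e4 e5
  rw [← e2, e1, e3, map_mul, map_pow, e5, e4]
  ring

/-- cocycles with the same Kummer data are equal -/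
theorem kd_unique {c c' : Gal k → Pts (ck d) (AlgebraicClosure k)} {a a' : k}
    {b : AlgebraicClosure k}
    (hmu : ∀ σ, mu (isK_bc hd hz (AlgebraicClosure k)) (c σ) = 0)
    (hmu' : ∀ σ, mu (isK_bc hd hz (AlgebraicClosure k)) (c' σ) = 0)
    (hk : KD hd hz c a b) (hk' : KD hd hz c' a' b) : c = c' := by
  funext σ
  refine ch_inj _ _ _ (hmu σ) (hmu' σ) (eq_of_sq3 (ch_cube _ _) (ch_cube _ _) ?_)
  exact mul_right_cancel₀ hk.ne ((hk.act σ).symm.trans (hk'.act σ))

theorem kd_mul {c c' : Gal k → Pts (ck d) (AlgebraicClosure k)} {a a' : k}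
    {b b' : AlgebraicClosure k}
    (hmu : ∀ σ, mu (isK_bc hd hz (AlgebraicClosure k)) (c σ) = 0)
    (hmu' : ∀ σ, mu (isK_bc hd hz (AlgebraicClosure k)) (c' σ) = 0)
    (hk : KD hd hz c a b) (hk' : KD hd hz c' a' b') : KD hd hz (c + c') (a * a') (b * b') := by
  refine ⟨mul_ne_zero hk.ne hk'.ne, by rw [map_mul, hk.cu, hk'.cu, mul_pow], fun σ => ?_⟩
  rw [Pi.add_apply, ch_add _ _ _ (hmu σ) (hmu' σ), map_mul, hk.act σ, hk'.act σ]
  ring

end Pool.Agent.Lib.MP_1a91b9_ntS3.C
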