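import Pool.Agent.Lib.MP_1a91b9_ntT.S9.QD
import Pool.Agent.Lib.MP_1a91b9_ntK.C.LocDefs

/-!
# MP_1a91b9_nt (cubic twists), converse of the descent: an element which is a cube up to a factor `1` modulo
more than `3 l` is a cube in the completion
-/

set_option autoImplicit false

namespace Pool.Agent.Lib.MP_1a91b9_ntS3.C

open WithZero NumberField IsDedekindDomain
open Pool.Agent.Lib.MP_1a91b9_ntK.C
open scoped Classical

theorem cube_of_Cu {N : Type*} [Field N] [NumberField N] (v : HeightOneSpectrum (𝓞 N)) {l u : N}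
    (hl : l ^ 2 = -3) (h : Cu (v.valuation N) l u) :
    ∃ β : v.adicCompletion N, β ^ 3 = algebraMap N (v.adicCompletion N) u := by
  obtain ⟨b, hb, h⟩ := h
  have : CharZero (v.adicCompletion N) :=
    charZero_of_injective_algebraMap (algebraMap N (v.adicCompletion N)).injective
  have hval : ∀ x : N, Valued.v (algebraMap N (v.adicCompletion N) x) = v.valuation N x :=
    fun x => HeightOneSpectrum.valuedAdicCompletion_eq_valuation' v x
  have hl0 : l ≠ 0 := by
    rintro rfl
    norm_num at hl
  have h30 : (3 * l : N) ≠ 0 := mul_ne_zero (by norm_num) hl0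
  have hlv : v.valuation N l ≤ 1 := by
    have h3 : v.valuation N (3 : N) ≤ 1 := by
      have h5 := HeightOneSpectrum.valuation_le_one (K := N) v (3 : 𝓞 N)
      have h6 : algebraMap (𝓞 N) N 3 = 3 := map_ofNat _ 3
      exact h6 ▸ h5
    have h4 : v.valuation N l ^ 2 ≤ 1 := by
      rw [← map_pow, hl, Valuation.map_neg]
      exact h3
    exact (pow_le_one_iff_of_nonneg zero_le (by norm_num)).1 h4
  set L := algebraMap N (v.adicCompletion N) l with hL
  have hL2 : L ^ 2 = -3 := by
    rw [hL, ← map_pow, hl, map_neg, map_ofNat]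
  set t : v.adicCompletion N := algebraMap N (v.adicCompletion N) ((u / b ^ 3 - 1) / (3 * l)) with ht
  have ht1 : Valued.v t < 1 := by
    rw [ht, hval, map_div₀]
    have h40 : v.valuation N (3 * l) ≠ 0 := (Valuation.ne_zero_iff _).2 h30
    exact (div_lt_one₀ (zero_lt_iff.2 h40)).2 h
  obtain ⟨w, _, hw⟩ := Pool.Agent.Lib.MP_1a91b9_ntT.S9.hensel_small v (-t) 1 L (-1) 0
    (by rw [Valuation.map_neg]; exact ht1) (map_one _) (by rw [hL, hval]; exact hlv)
    (by rw [Valuation.map_neg, map_one]) (by rw [map_zero]; exact zero_le)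
  refine ⟨algebraMap N (v.adicCompletion N) b * (1 + L * w), ?_⟩
  have e : algebraMap N (v.adicCompletion N) u =
      algebraMap N (v.adicCompletion N) b ^ 3 * (1 + 3 * L * t) := by
    have h5 : u = b ^ 3 * (1 + 3 * l * ((u / b ^ 3 - 1) / (3 * l))) := by
      field_simp
      ring
    rw [ht, hL]
    conv_lhs => rw [h5]
    simp only [map_mul, map_add, map_one, map_pow, map_ofNat]
  rw [e]
  linear_combination (3 * L * algebraMap N (v.adicCompletion N) b ^ 3) * hw +
    (algebraMap N (v.adicCompletion N) b ^ 3 * (L * w ^ 3)) * hL2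

end Pool.Agent.Lib.MP_1a91b9_ntS3.C
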